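import Pool.Agent.Helper71.BDA.PoisSum

/-!
BDA block PT. Poisson summation on `ℤ³`.
`F x = ∑ m, g (x + m)` is continuous (dominated by `shift_le`) and `ℤ³`-periodic, hence descends to a continuous function on
`UnitAddTorus (Fin 3)`; its Fourier coefficient is `∫_{(0,1]³} F(x) e(-n⋅x) dx = ∫_{ℝ³} g(x) e(-n⋅x) dx = FT g n`, and
`UnitAddTorus.hasSum_mFourier_series_apply_of_summable`. (helper77)
-/

open MeasureTheory Complex Topology Set

namespace Pool.Agent.Helper71.BDA

namespace Pois3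

theorem cst_add (m k : Fin 3 → ℤ) : cst (m + k) = cst m + cst k := by
  funext j; simp [cst]

/-- the projection to the torus -/
def pr (x : Fin 3 → ℝ) : UnitAddTorus (Fin 3) := fun i => (x i : UnitAddCircle)

theorem pr_quot : IsOpenQuotientMap pr :=
  IsOpenQuotientMap.piMap (f := fun _ : Fin 3 => ((fun t : ℝ => (t : UnitAddCircle))))
    (fun _ => QuotientAddGroup.isOpenQuotientMap_mk)

theorem pr_eq {x y : Fin 3 → ℝ} (h : pr x = pr y) : ∃ k : Fin 3 → ℤ, x = y + cst k := by
  have h1 : ∀ i, ∃ n : ℤ, (n : ℝ) = x i - y i := by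
    intro i
    have h2 : ((x i : ℝ) : UnitAddCircle) = ((y i : ℝ) : UnitAddCircle) := congrFun h i
    have h3 : (((x i - y i : ℝ)) : UnitAddCircle) = 0 := by
      rw [AddCircle.coe_sub, h2, sub_self]
    obtain ⟨n, hn⟩ := (AddCircle.coe_eq_zero_iff (1 : ℝ)).1 h3
    exact ⟨n, by simpa using hn⟩
  choose k hk using h1
  refine ⟨k, ?_⟩
  funext i
  simp [cst, hk i]

/-- the periodisation -/
noncomputable def per (g : (Fin 3 → ℝ) → ℂ) (x : Fin 3 → ℝ) : ℂ := ∑' m : Fin 3 → ℤ, g (x + cst m)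

theorem per_add (g : (Fin 3 → ℝ) → ℂ) (x : Fin 3 → ℝ) (k : Fin 3 → ℤ) : per g (x + cst k) = per g x := by
  unfold per
  rw [← (Equiv.addLeft k).tsum_eq (fun m : Fin 3 → ℤ => g (x + cst m))]
  refine tsum_congr fun m => ?_
  rw [Equiv.coe_addLeft, cst_add, add_assoc]

theorem C_nonneg {g : (Fin 3 → ℝ) → ℂ} {C p : ℝ} (h1 : ∀ x, ‖g x‖ ≤ C * (1 + ‖x‖) ^ (-p)) : 0 ≤ C := by
  have := (norm_nonneg _).trans (h1 0)
  simpa using this

theorem per_cont {g : (Fin 3 → ℝ) → ℂ} (hg : Continuous g) {C p : ℝ} (hp : 3 < p)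
    (h1 : ∀ x, ‖g x‖ ≤ C * (1 + ‖x‖) ^ (-p)) : Continuous (per g) := by
  have hC := C_nonneg h1
  rw [continuous_iff_continuousAt]
  intro x₀
  have hon : ContinuousOn (per g) (Metric.ball x₀ 1) := by
    refine continuousOn_tsum (u := fun m : Fin 3 → ℤ => C * (2 + ‖x₀‖) ^ p * (1 + ‖cst m‖) ^ (-p)) ?_ ?_ ?_
    · intro m
      exact (hg.comp (continuous_id.add continuous_const)).continuousOn
    · exact (summable_int3 hp).mul_left _
    · intro m x hx
      have hx1 : ‖x‖ ≤ 1 + ‖x₀‖ := by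
        have h2 : ‖x - x₀‖ < 1 := by simpa [dist_eq_norm] using hx
        have h3 := norm_sub_norm_le x x₀
        linarith
      have h4 : (1 + ‖x‖) ^ p ≤ (2 + ‖x₀‖) ^ p := by
        refine Real.rpow_le_rpow (by positivity) (by linarith) (by linarith)
      have h5 : 0 ≤ (1 + ‖cst m‖) ^ (-p) := by positivity
      calc ‖g (x + cst m)‖ ≤ C * (1 + ‖x + cst m‖) ^ (-p) := h1 _
        _ ≤ C * ((1 + ‖x‖) ^ p * (1 + ‖cst m‖) ^ (-p)) :=
            mul_le_mul_of_nonneg_left (shift_le (by linarith) x m) hC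
        _ ≤ C * ((2 + ‖x₀‖) ^ p * (1 + ‖cst m‖) ^ (-p)) := by gcongr
        _ = _ := by ring
  exact hon.continuousAt (Metric.ball_mem_nhds x₀ one_pos)

theorem g_integrable {g : (Fin 3 → ℝ) → ℂ} (hg : Continuous g) {C p : ℝ} (hp : 3 < p)
    (h1 : ∀ x, ‖g x‖ ≤ C * (1 + ‖x‖) ^ (-p)) : Integrable g := by
  have h2 : Integrable (fun x : Fin 3 → ℝ => C * (1 + ‖x‖) ^ (-p)) := by
    refine (integrable_one_add_norm ?_).const_mul C
    simpa using hp
  exact h2.mono' hg.aestronglyMeasurable (Filter.Eventually.of_forall h1)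

/-- the boxes -/
def box (m : Fin 3 → ℤ) : Set (Fin 3 → ℝ) := {x | ∀ i, x i ∈ Ioc (m i : ℝ) (m i + 1)}

theorem box_meas (m : Fin 3 → ℤ) : MeasurableSet (box m) := by
  have : box m = ⋂ i, (fun x : Fin 3 → ℝ => x i) ⁻¹' (Ioc (m i : ℝ) (m i + 1)) := by
    ext x; simp [box]
  rw [this]
  exact MeasurableSet.iInter fun i => measurable_pi_apply i measurableSet_Ioc

theorem box_disj : Pairwise (Function.onFun Disjoint box) := by
  intro m n hmn
  rw [Function.onFun, Set.disjoint_left]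
  intro x hx hy
  apply hmn
  funext i
  have h1 := hx i
  have h2 := hy i
  rw [mem_Ioc] at h1 h2
  have h3 : (m i : ℝ) < n i + 1 := by linarith
  have h4 : (n i : ℝ) < m i + 1 := by linarith
  have h5 : m i < n i + 1 := by exact_mod_cast h3
  have h6 : n i < m i + 1 := by exact_mod_cast h4
  omega

theorem box_union : (⋃ m, box m) = univ := by
  rw [eq_univ_iff_forall]
  intro x
  rw [mem_iUnion]
  refine ⟨fun i => ⌈x i⌉ - 1, fun i => ?_⟩
  rw [mem_Ioc]
  push_cast
  constructor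
  · linarith [Int.ceil_lt_add_one (x i)]
  · linarith [Int.le_ceil (x i)]

theorem box_shift (m : Fin 3 → ℤ) : (fun x : Fin 3 → ℝ => x + cst m) ⁻¹' (box m) = box 0 := by
  ext x
  simp only [box, mem_preimage, mem_setOf_eq, Pi.add_apply, cst, Pi.zero_apply, mem_Ioc]
  refine forall_congr' fun i => ?_
  push_cast
  constructor
  · rintro ⟨h1, h2⟩; constructor <;> linarith
  · rintro ⟨h1, h2⟩; constructor <;> linarith

theorem int_shift {E : Type*} [NormedAddCommGroup E] [NormedSpace ℝ E] (f : (Fin 3 → ℝ) → E) (m : Fin 3 → ℤ) :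
    ∫ x in box m, f x = ∫ x in box 0, f (x + cst m) := by
  rw [← box_shift m]
  exact ((measurePreserving_add_right volume (cst m)).setIntegral_preimage_emb
    (measurableEmbedding_addRight _) f (box m)).symm

theorem ee_add (s t : ℝ) : ee (s + t) = ee s * ee t := by
  unfold ee
  rw [← exp_add]
  congr 1
  push_cast
  ring

theorem ee_int (k : ℤ) : ee k = 1 := by
  unfold ee
  rw [Complex.exp_eq_one_iff]
  refine ⟨k, ?_⟩
  push_cast
  ring

theorem ee_norm (t : ℝ) : ‖ee t‖ = 1 := by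
  unfold ee
  have : (2 * Real.pi * I * t : ℂ) = ((2 * Real.pi * t : ℝ) : ℂ) * I := by push_cast; ring
  rw [this, Complex.norm_exp_ofReal_mul_I]

theorem ee_cont : Continuous ee := by
  unfold ee
  fun_prop

theorem mF_eq (n : Fin 3 → ℤ) (x : Fin 3 → ℝ) :
    UnitAddTorus.mFourier n (pr x) = ee (∑ j, x j * n j) := by
  unfold UnitAddTorus.mFourier pr ee
  rw [ContinuousMap.coe_mk]
  simp only [fourier_coe_apply]
  rw [← exp_sum]
  congr 1
  push_cast
  rw [Finset.mul_sum]
  refine Finset.sum_congr rfl fun i _ => ?_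
  ring

/-- unfolding -/
theorem unfold_int {g : (Fin 3 → ℝ) → ℂ} (hi : Integrable g) (n : Fin 3 → ℤ) :
    ∫ x in box 0, ee (-∑ j, x j * n j) * per g x = FT g (cst n) := by
  set φ : (Fin 3 → ℝ) → ℂ := fun x => ee (-∑ j, x j * n j) * g x with hφ
  have hφi : Integrable φ := by
    refine hi.bdd_mul (c := 1) ?_ ?_
    · refine (ee_cont.comp ?_).aestronglyMeasurable
      fun_prop
    · exact Filter.Eventually.of_forall fun x => (ee_norm _).le
  have hsh : ∀ m : Fin 3 → ℤ, ∀ x, φ (x + cst m) = ee (-∑ j, x j * n j) * g (x + cst m) := by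
    intro m x
    simp only [hφ]
    congr 1
    have : (-∑ j, (x + cst m) j * (n j : ℝ)) = (-∑ j, x j * (n j : ℝ)) + ((-∑ j, m j * n j : ℤ) : ℝ) := by
      push_cast
      rw [← neg_add, ← Finset.sum_add_distrib]
      congr 1
      refine Finset.sum_congr rfl fun i _ => ?_
      simp [cst]
      ring
    rw [this, ee_add, ee_int, mul_one]
  have s1 : HasSum (fun m : Fin 3 → ℤ => ∫ x in box m, φ x) (∫ x in ⋃ m, box m, φ x) :=
    hasSum_integral_iUnion box_meas box_disj hφi.integrableOn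
  rw [box_union, Measure.restrict_univ] at s1
  have s2 : HasSum (fun m : Fin 3 → ℤ => ∫ x in box m, ‖φ x‖) (∫ x in ⋃ m, box m, ‖φ x‖) :=
    hasSum_integral_iUnion box_meas box_disj hφi.norm.integrableOn
  have s3 : HasSum (fun m : Fin 3 → ℤ => ∫ x in box 0, φ (x + cst m)) (∫ x in box 0, ∑' m, φ (x + cst m)) := by
    refine hasSum_integral_of_summable_integral_norm ?_ ?_
    · intro m
      exact (hφi.comp_add_right (cst m)).integrableOn
    · refine s2.summable.congr fun m => ?_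
      rw [int_shift (fun x => ‖φ x‖) m]
  have s4 : (∫ x in box 0, ∑' m, φ (x + cst m)) = ∫ x, φ x := by
    exact s3.unique (s1.congr_fun fun m => (int_shift φ m).symm)
  have s5 : (∫ x in box 0, ∑' m, φ (x + cst m)) = ∫ x in box 0, ee (-∑ j, x j * n j) * per g x := by
    refine integral_congr_ae (Filter.Eventually.of_forall fun x => ?_)
    simp only [hsh]
    rw [tsum_mul_left]
    rfl
  rw [← s5, s4]
  rfl

end Pois3

open Pois3 in
theorem poisson3 (g : (Fin 3 → ℝ) → ℂ) (hg : Continuous g) {C p : ℝ} (hp : 3 < p)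
    (h1 : ∀ x, ‖g x‖ ≤ C * (1 + ‖x‖) ^ (-p))
    (h2 : Summable (fun n : Fin 3 → ℤ => ‖FT g (cst n)‖)) (x : Fin 3 → ℝ) :
    HasSum (fun n : Fin 3 → ℤ => FT g (cst n) * ee (∑ j, x j * n j)) (∑' m : Fin 3 → ℤ, g (x + cst m)) := by
  have hlift : ∃ f : C(UnitAddTorus (Fin 3), ℂ), ∀ x, f (pr x) = per g x := by
    set s := Function.surjInv pr_quot.surjective with hs
    have hfs : ∀ x, per g (s (pr x)) = per g x := by
      intro x
      obtain ⟨k, hk⟩ := pr_eq (Function.surjInv_eq pr_quot.surjective (pr x))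
      rw [hs, hk, per_add]
    refine ⟨⟨fun y => per g (s y), ?_⟩, hfs⟩
    refine pr_quot.continuous_comp_iff.1 ?_
    have : (fun y => per g (s y)) ∘ pr = per g := by
      funext x; exact hfs x
    rw [this]
    exact per_cont hg hp h1
  obtain ⟨f, hf⟩ := hlift
  have hi := g_integrable hg hp h1
  have hco : ∀ n : Fin 3 → ℤ, UnitAddTorus.mFourierCoeff f n = FT g (cst n) := by
    intro n
    rw [UnitAddTorus.mFourierCoeff_eq_integral f n 0, ← unfold_int hi n]
    have hb : {x : Fin 3 → ℝ | ∀ i, x i ∈ Ioc ((0 : Fin 3 → ℝ) i) ((0 : Fin 3 → ℝ) i + 1)} = box 0 := by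
      ext x; simp [box]
    rw [hb]
    refine integral_congr_ae (Filter.Eventually.of_forall fun x => ?_)
    have e1 : UnitAddTorus.mFourier (-n) (fun i => ((x i : ℝ) : UnitAddCircle)) = ee (-∑ j, x j * n j) := by
      have := mF_eq (-n) x
      unfold pr at this
      rw [this]
      congr 1
      simp
    have e2 : f (fun i => ((x i : ℝ) : UnitAddCircle)) = per g x := hf x
    simp only [smul_eq_mul]
    rw [e1, e2]
  have hsum : Summable (UnitAddTorus.mFourierCoeff f) := by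
    refine Summable.of_norm ?_
    refine h2.congr fun n => ?_
    rw [hco]
  have h3 := UnitAddTorus.hasSum_mFourier_series_apply_of_summable hsum (pr x)
  rw [hf] at h3
  exact h3.congr_fun fun n => by rw [hco, mF_eq, smul_eq_mul]

end Pool.Agent.Helper71.BDA
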