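import Pool.Agent.Helper71.BDA.Pois

/-!
BDA block PA. Poisson summation for the lattice `A ℤ³` shifted by `r`.
Apply `poisson3` to `g ∘ A`; `FT (g ∘ A) ξ = |det A|⁻¹ FT g (A⁻ᵀ ξ)` (`Real.map_matrix_volume_pi_eq_smul_volume_pi`),
`A m + r = A (A⁻¹ r + m)`, `(A⁻¹ r)⋅n = r⋅(A⁻ᵀ n)`. (helper77)
-/

open MeasureTheory Complex

namespace Pool.Agent.Helper71.BDA

/-- points of the dual lattice -/
noncomputable def dual (A : Matrix (Fin 3) (Fin 3) ℝ) (n : Fin 3 → ℤ) : Fin 3 → ℝ := (A⁻¹).transpose.mulVec (cst n)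

namespace PA

theorem lower (A : Matrix (Fin 3) (Fin 3) ℝ) (hA : A.det ≠ 0) : ∃ c : ℝ, 0 < c ∧ c ≤ 1 ∧ ∀ x, c * ‖x‖ ≤ ‖A.mulVec x‖ := by
  set L : (Fin 3 → ℝ) →L[ℝ] (Fin 3 → ℝ) := LinearMap.toContinuousLinearMap (Matrix.toLin' A⁻¹) with hL
  have hLx : ∀ x, L (A.mulVec x) = x := by
    intro x
    rw [hL, LinearMap.coe_toContinuousLinearMap', Matrix.toLin'_apply, Matrix.mulVec_mulVec,
      Matrix.nonsing_inv_mul A (isUnit_iff_ne_zero.2 hA), Matrix.one_mulVec]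
  have hK : 0 < ‖L‖ + 1 := by positivity
  refine ⟨(‖L‖ + 1)⁻¹, inv_pos.2 hK, inv_le_one_of_one_le₀ (by linarith [norm_nonneg L]), fun x => ?_⟩
  rw [inv_mul_le_iff₀ hK]
  calc ‖x‖ = ‖L (A.mulVec x)‖ := by rw [hLx]
    _ ≤ ‖L‖ * ‖A.mulVec x‖ := L.le_opNorm _
    _ ≤ (‖L‖ + 1) * ‖A.mulVec x‖ := by gcongr; linarith

theorem decay (A : Matrix (Fin 3) (Fin 3) ℝ) (hA : A.det ≠ 0) {p : ℝ} (hp : 3 < p) :
    ∃ K : ℝ, 0 ≤ K ∧ ∀ x, (1 + ‖A.mulVec x‖) ^ (-p) ≤ K * (1 + ‖x‖) ^ (-p) := by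
  obtain ⟨c, hc, hc1, h⟩ := lower A hA
  refine ⟨c ^ (-p), by positivity, fun x => ?_⟩
  rw [← Real.mul_rpow hc.le (by positivity)]
  refine Real.rpow_le_rpow_of_nonpos (by positivity) ?_ (by linarith)
  have := h x
  nlinarith [norm_nonneg x]

theorem FT_comp (A : Matrix (Fin 3) (Fin 3) ℝ) (hA : A.det ≠ 0) (g : (Fin 3 → ℝ) → ℂ) (hg : Continuous g) (ξ : Fin 3 → ℝ) :
    FT (fun x => g (A.mulVec x)) ξ = ((|A.det| : ℝ) : ℂ)⁻¹ * FT g ((A⁻¹).transpose.mulVec ξ) := by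
  have hm := Real.map_matrix_volume_pi_eq_smul_volume_pi (M := A) hA
  have hcont : Continuous (fun y : Fin 3 → ℝ => ee (-∑ j, y j * ((A⁻¹).transpose.mulVec ξ) j) * g y) := by
    refine (Pois3.ee_cont.comp ?_).mul hg
    fun_prop
  have h1 : ∫ y, ee (-∑ j, y j * ((A⁻¹).transpose.mulVec ξ) j) * g y ∂(Measure.map (Matrix.toLin' A) volume) =
      ∫ x, ee (-∑ j, (A.mulVec x) j * ((A⁻¹).transpose.mulVec ξ) j) * g (A.mulVec x) := by
    rw [integral_map (LinearMap.continuous_of_finiteDimensional _).aemeasurable hcont.aestronglyMeasurable]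
    simp only [Matrix.toLin'_apply]
  rw [hm, integral_smul_measure] at h1
  unfold FT
  have h2 : ∀ x : Fin 3 → ℝ, ∑ j, (A.mulVec x) j * ((A⁻¹).transpose.mulVec ξ) j = ∑ j, x j * ξ j := by
    intro x
    have e : (A.mulVec x) ⬝ᵥ ((A⁻¹).transpose.mulVec ξ) = x ⬝ᵥ ξ := by
      rw [Matrix.dotProduct_mulVec, Matrix.vecMul_transpose, Matrix.mulVec_mulVec,
        Matrix.nonsing_inv_mul A (isUnit_iff_ne_zero.2 hA), Matrix.one_mulVec]
    exact e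
  simp only [h2] at h1
  rw [← h1, ENNReal.toReal_ofReal (abs_nonneg _), abs_inv]
  rw [Complex.real_smul]
  push_cast
  rfl

end PA

open PA in
theorem poissonA (A : Matrix (Fin 3) (Fin 3) ℝ) (hA : A.det ≠ 0) (g : (Fin 3 → ℝ) → ℂ) (hg : Continuous g) {C p : ℝ} (hp : 3 < p)
    (h1 : ∀ x, ‖g x‖ ≤ C * (1 + ‖x‖) ^ (-p))
    (h2 : ∀ ξ, ‖FT g ξ‖ ≤ C * (1 + ‖ξ‖) ^ (-p)) (r : Fin 3 → ℝ) :
    Summable (fun m : Fin 3 → ℤ => ‖g (A.mulVec (cst m) + r)‖) ∧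
    Summable (fun n : Fin 3 → ℤ => ‖FT g (dual A n)‖) ∧
    ∑' m : Fin 3 → ℤ, g (A.mulVec (cst m) + r) =
      ((|A.det| : ℝ) : ℂ)⁻¹ * ∑' n : Fin 3 → ℤ, FT g (dual A n) * ee (∑ j, r j * dual A n j) := by
  have hC := Pois3.C_nonneg h1
  obtain ⟨K, hK, hKx⟩ := decay A hA hp
  have hB : ((A⁻¹).transpose).det ≠ 0 := by
    rw [Matrix.det_transpose, Matrix.det_nonsing_inv, Ring.inverse_eq_inv']
    exact inv_ne_zero hA
  obtain ⟨K', hK', hKx'⟩ := decay _ hB hp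
  set G : (Fin 3 → ℝ) → ℂ := fun x => g (A.mulVec x) with hG
  have hAc : Continuous (fun x : Fin 3 → ℝ => A.mulVec x) := by
    have h3 := (Matrix.toLin' A).continuous_of_finiteDimensional
    exact h3
  have hGc : Continuous G := hg.comp hAc
  have hG1 : ∀ x, ‖G x‖ ≤ C * K * (1 + ‖x‖) ^ (-p) := by
    intro x
    calc ‖G x‖ ≤ C * (1 + ‖A.mulVec x‖) ^ (-p) := h1 _
      _ ≤ C * (K * (1 + ‖x‖) ^ (-p)) := mul_le_mul_of_nonneg_left (hKx x) hC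
      _ = _ := by ring
  have hFT : ∀ n : Fin 3 → ℤ, FT G (cst n) = ((|A.det| : ℝ) : ℂ)⁻¹ * FT g (dual A n) := by
    intro n
    rw [hG, FT_comp A hA g hg]
    rfl
  have hs2 : Summable (fun n : Fin 3 → ℤ => ‖FT g (dual A n)‖) := by
    refine Summable.of_nonneg_of_le (fun _ => norm_nonneg _) (fun n => ?_) ((summable_int3 hp).mul_left (C * K'))
    calc ‖FT g (dual A n)‖ ≤ C * (1 + ‖dual A n‖) ^ (-p) := h2 _
      _ ≤ C * (K' * (1 + ‖cst n‖) ^ (-p)) := mul_le_mul_of_nonneg_left (hKx' (cst n)) hC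
      _ = _ := by ring
  have hGs : Summable (fun n : Fin 3 → ℤ => ‖FT G (cst n)‖) := by
    refine (hs2.mul_left (‖((|A.det| : ℝ) : ℂ)⁻¹‖)).congr fun n => ?_
    rw [hFT, norm_mul]
  set s : Fin 3 → ℝ := A⁻¹.mulVec r with hs
  have hAs : ∀ m : Fin 3 → ℤ, A.mulVec (s + cst m) = A.mulVec (cst m) + r := by
    intro m
    rw [Matrix.mulVec_add, hs, Matrix.mulVec_mulVec, Matrix.mul_nonsing_inv A (isUnit_iff_ne_zero.2 hA),
      Matrix.one_mulVec, add_comm]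
  have hdot : ∀ n : Fin 3 → ℤ, ∑ j, s j * (n j : ℝ) = ∑ j, r j * dual A n j := by
    intro n
    have e : s ⬝ᵥ cst n = r ⬝ᵥ dual A n := by
      rw [hs]
      unfold dual
      rw [Matrix.dotProduct_mulVec, Matrix.vecMul_transpose]
    exact e
  have hmain := poisson3 G hGc hp hG1 hGs s
  refine ⟨?_, hs2, ?_⟩
  · refine Summable.of_nonneg_of_le (fun _ => norm_nonneg _) (fun m => ?_) ((summable_shift hp s).mul_left (C * K))
    rw [← hAs]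
    exact hG1 _
  · have e1 : ∑' m : Fin 3 → ℤ, g (A.mulVec (cst m) + r) = ∑' m : Fin 3 → ℤ, G (s + cst m) := by
      refine tsum_congr fun m => ?_
      simp only [hG, hAs]
    rw [e1, ← hmain.tsum_eq, ← tsum_mul_left]
    refine tsum_congr fun n => ?_
    rw [hFT, hdot, mul_assoc]

/-- the smallest nonzero lattice vector: `‖A x‖ ≥ c ‖x‖` -/
theorem mulVec_lower (A : Matrix (Fin 3) (Fin 3) ℝ) (hA : A.det ≠ 0) : ∃ c : ℝ, 0 < c ∧ ∀ x, c * ‖x‖ ≤ ‖A.mulVec x‖ := by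
  obtain ⟨c, hc, -, h⟩ := PA.lower A hA
  exact ⟨c, hc, h⟩

end Pool.Agent.Helper71.BDA
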