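import Mathlib

/-! MP_bd232a_nt, part A0: definition of the Fourier transform on `Fin 3 → ℝ` (shared with part E). -/

open Complex

namespace Pool.Agent.Helper71.BDA

/-- an integer vector as a real vector -/
def cst (m : Fin 3 → ℤ) : Fin 3 → ℝ := fun j => (m j : ℝ)

/-- `e(t) = exp (2πi t)` -/
noncomputable def ee (t : ℝ) : ℂ := exp (2 * Real.pi * I * t)

/-- the Fourier transform `∫ e(-x⋅ξ) g(x) dx` on `Fin 3 → ℝ` (product Lebesgue measure) -/
noncomputable def FT (g : (Fin 3 → ℝ) → ℂ) (ξ : Fin 3 → ℝ) : ℂ :=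
  ∫ x : Fin 3 → ℝ, ee (-∑ j, x j * ξ j) * g x

end Pool.Agent.Helper71.BDA
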