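import Pool.Agent.Helper71.BDA.Defs

/-!
BDA block BL2. Logarithmic coordinates `crd`, and the lattice vectors.
Hint: `M.mulVec (crd x) = log |x|` because `det M ≠ 0` (`indep`); everything else follows from `crd_unique`; `sum_L` from `e_norm`.
-/

open Complex
open scoped ContDiff

namespace Pool.Agent.Helper71.BDA

namespace Lat

variable (Λ : Lat)

theorem e_ne (i : Fin 2) (j : Fin 3) : Λ.e i j ≠ 0 := by
  intro h
  have h1 := Λ.e_norm i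
  rw [Finset.prod_eq_zero (Finset.mem_univ j) h] at h1
  simp at h1

theorem sum_L (i : Fin 2) : ∑ j, Λ.L i j = 0 := by
  have h1 := Λ.e_norm i
  rw [Finset.abs_prod] at h1
  have h2 : Real.log (∏ j, |Λ.e i j|) = ∑ j, Real.log |Λ.e i j| :=
    Real.log_prod (fun j _ => abs_ne_zero.mpr (Λ.e_ne i j))
  rw [h1, Real.log_one] at h2
  exact h2.symm

theorem M_det : Λ.M.det ≠ 0 := Λ.indep

theorem M_mulVec (y : Fin 3 → ℝ) (j : Fin 3) :
    Λ.M.mulVec y j = y 0 + y 1 * Λ.L 0 j + y 2 * Λ.L 1 j := by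
  simp [M, Matrix.mulVec, dotProduct, Fin.sum_univ_three]
  ring

/-- `log |x_j| = c₀ + c₁ L₀ⱼ + c₂ L₁ⱼ` -/
theorem log_eq (x : Fin 3 → ℝ) (j : Fin 3) :
    Real.log |x j| = Λ.crd x 0 + Λ.crd x 1 * Λ.L 0 j + Λ.crd x 2 * Λ.L 1 j := by
  rw [← M_mulVec, crd, Matrix.mulVec_mulVec,
    Matrix.mul_nonsing_inv _ (isUnit_iff_ne_zero.mpr Λ.M_det), Matrix.one_mulVec]

/-- uniqueness of the coordinates -/
theorem crd_unique (x : Fin 3 → ℝ) (y : Fin 3 → ℝ) (h : ∀ j, Real.log |x j| = y 0 + y 1 * Λ.L 0 j + y 2 * Λ.L 1 j) :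
    Λ.crd x = y := by
  have h1 : (fun j => Real.log |x j|) = Λ.M.mulVec y := by
    funext j
    rw [h j, M_mulVec]
  rw [crd, h1, Matrix.mulVec_mulVec,
    Matrix.nonsing_inv_mul _ (isUnit_iff_ne_zero.mpr Λ.M_det), Matrix.one_mulVec]

theorem crd_zero (x : Fin 3 → ℝ) : 3 * Λ.crd x 0 = ∑ j, Real.log |x j| := by
  have h0 := Λ.sum_L 0
  have h1 := Λ.sum_L 1
  rw [Fin.sum_univ_three] at h0 h1 ⊢
  rw [Λ.log_eq x 0, Λ.log_eq x 1, Λ.log_eq x 2]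
  linear_combination (-(Λ.crd x 1)) * h0 - (Λ.crd x 2) * h1

theorem crd_zero' (x : Fin 3 → ℝ) (hx : ∀ j, x j ≠ 0) : 3 * Λ.crd x 0 = Real.log |∏ j, x j| := by
  rw [crd_zero, Finset.abs_prod, Real.log_prod (fun j _ => abs_ne_zero.mpr (hx j))]

/-- multiplication by a positive vector `exp (y₀ + y₁ L₀ + y₂ L₁)` translates the coordinates by `y` -/
theorem crd_exp_mul (x : Fin 3 → ℝ) (hx : ∀ j, x j ≠ 0) (y : Fin 3 → ℝ) (k : Fin 3) :
    Λ.crd (fun j => Real.exp (y 0 + y 1 * Λ.L 0 j + y 2 * Λ.L 1 j) * x j) k = Λ.crd x k + y k := by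
  have h : Λ.crd (fun j => Real.exp (y 0 + y 1 * Λ.L 0 j + y 2 * Λ.L 1 j) * x j) = Λ.crd x + y := by
    apply Λ.crd_unique
    intro j
    rw [abs_mul, Real.log_mul (abs_ne_zero.mpr (Real.exp_ne_zero _)) (abs_ne_zero.mpr (hx j)),
      Real.log_abs, Real.log_exp, Λ.log_eq x j]
    simp only [Pi.add_apply]
    ring
  rw [h, Pi.add_apply]

theorem crd_smul (x : Fin 3 → ℝ) (hx : ∀ j, x j ≠ 0) {t : ℝ} (ht : 0 < t) :
    Λ.crd (t • x) 0 = Λ.crd x 0 + Real.log t ∧ Λ.crd (t • x) 1 = Λ.crd x 1 ∧ Λ.crd (t • x) 2 = Λ.crd x 2 := by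
  have h : Λ.crd (t • x) = Λ.crd x + ![Real.log t, 0, 0] := by
    apply Λ.crd_unique
    intro j
    rw [Pi.smul_apply, smul_eq_mul, abs_mul, Real.log_mul (abs_ne_zero.mpr ht.ne') (abs_ne_zero.mpr (hx j)),
      Real.log_abs, Λ.log_eq x j]
    simp only [Pi.add_apply, Matrix.cons_val_zero, Matrix.cons_val_one, Matrix.cons_val]
    ring
  rw [h]
  refine ⟨?_, ?_, ?_⟩ <;> simp [Pi.add_apply]

/-- multiplication by the unit `ε₀` -/
theorem crd_e0 (x : Fin 3 → ℝ) (hx : ∀ j, x j ≠ 0) :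
    Λ.crd (fun j => Λ.e 0 j * x j) 0 = Λ.crd x 0 ∧ Λ.crd (fun j => Λ.e 0 j * x j) 1 = Λ.crd x 1 + 1 ∧
      Λ.crd (fun j => Λ.e 0 j * x j) 2 = Λ.crd x 2 := by
  have h : Λ.crd (fun j => Λ.e 0 j * x j) = Λ.crd x + ![0, 1, 0] := by
    apply Λ.crd_unique
    intro j
    rw [abs_mul, Real.log_mul (abs_ne_zero.mpr (Λ.e_ne 0 j)) (abs_ne_zero.mpr (hx j)), Λ.log_eq x j]
    change Λ.L 0 j + _ = _
    simp only [Pi.add_apply, Matrix.cons_val_zero, Matrix.cons_val_one, Matrix.cons_val]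
    ring
  rw [h]
  refine ⟨?_, ?_, ?_⟩ <;> simp [Pi.add_apply]

/-- multiplication by the unit `ε₁` -/
theorem crd_e1 (x : Fin 3 → ℝ) (hx : ∀ j, x j ≠ 0) :
    Λ.crd (fun j => Λ.e 1 j * x j) 0 = Λ.crd x 0 ∧ Λ.crd (fun j => Λ.e 1 j * x j) 1 = Λ.crd x 1 ∧
      Λ.crd (fun j => Λ.e 1 j * x j) 2 = Λ.crd x 2 + 1 := by
  have h : Λ.crd (fun j => Λ.e 1 j * x j) = Λ.crd x + ![0, 0, 1] := by
    apply Λ.crd_unique
    intro j
    rw [abs_mul, Real.log_mul (abs_ne_zero.mpr (Λ.e_ne 1 j)) (abs_ne_zero.mpr (hx j)), Λ.log_eq x j]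
    change Λ.L 1 j + _ = _
    simp only [Pi.add_apply, Matrix.cons_val_zero, Matrix.cons_val_one, Matrix.cons_val]
    ring
  rw [h]
  refine ⟨?_, ?_, ?_⟩ <;> simp [Pi.add_apply]

theorem crd_contDiffOn (k : Fin 3) : ContDiffOn ℝ ∞ (fun x => Λ.crd x k) {x | ∀ j, x j ≠ 0} := by
  have h : (fun x => Λ.crd x k) = fun x : Fin 3 → ℝ => ∑ j, Λ.M⁻¹ k j * Real.log (x j) := by
    funext x
    simp [crd, Matrix.mulVec, dotProduct, Real.log_abs]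
  rw [h]
  apply ContDiffOn.sum
  intro j _
  apply ContDiffOn.mul contDiffOn_const
  apply ContDiffOn.log
  · exact (contDiff_apply ℝ ℝ j).contDiffOn
  · intro x hx
    exact hx j

theorem isOpen_ne : IsOpen {x : Fin 3 → ℝ | ∀ j, x j ≠ 0} := by
  have h : {x : Fin 3 → ℝ | ∀ j, x j ≠ 0} = ⋂ j, {x : Fin 3 → ℝ | x j ≠ 0} := by
    ext x
    simp
  rw [h]
  exact isOpen_iInter_of_finite (fun j => isOpen_ne_fun (continuous_apply j) continuous_const)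

/-! ### the lattice -/

theorem A_det : Λ.A.det ≠ 0 := by
  intro h
  have h1 := Λ.detA
  rw [h, abs_zero] at h1
  norm_num at h1

theorem vec_zero : Λ.vec 0 = 0 := by
  have h : (fun i : Fin 3 => (((0 : Fin 3 → ℤ) i : ℤ) : ℝ)) = 0 := by
    funext i
    simp
  rw [vec, h, Matrix.mulVec_zero]

/-- nonzero lattice points have nonzero conjugates -/
theorem vec_ne {m : Fin 3 → ℤ} (hm : m ≠ 0) (j : Fin 3) : Λ.vec m j ≠ 0 := by
  intro h
  apply Λ.nm_ne m hm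
  have h1 := Λ.nm_eq m
  change _ = ∏ j, Λ.vec m j at h1
  rw [Finset.prod_eq_zero (Finset.mem_univ j) h] at h1
  exact_mod_cast h1

theorem nm_zero : Λ.nm 0 = 0 := by
  have h1 := Λ.nm_eq 0
  have h2 : Λ.A.mulVec (fun i : Fin 3 => (((0 : Fin 3 → ℤ) i : ℤ) : ℝ)) 0 = 0 := by
    have := congrFun Λ.vec_zero 0
    simpa [vec] using this
  rw [Finset.prod_eq_zero (Finset.mem_univ (0 : Fin 3)) h2] at h1
  exact_mod_cast h1

theorem nm_abs (m : Fin 3 → ℤ) : ((Λ.nm m).natAbs : ℝ) = |∏ j, Λ.vec m j| := by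
  have h1 := Λ.nm_eq m
  change _ = ∏ j, Λ.vec m j at h1
  rw [← h1, Nat.cast_natAbs, Int.cast_abs]

theorem nm_pos {m : Fin 3 → ℤ} (hm : m ≠ 0) : 1 ≤ (Λ.nm m).natAbs :=
  Int.natAbs_pos.mpr (Λ.nm_ne m hm)

theorem vec_U (i : Fin 2) (m : Fin 3 → ℤ) : Λ.vec (Λ.U i m) = fun j => Λ.e i j * Λ.vec m j := by
  funext j
  exact Λ.U_spec i m j

theorem U_zero (i : Fin 2) : Λ.U i 0 = 0 := by
  by_contra h
  have h1 := Λ.vec_ne h 0
  apply h1
  rw [vec_U, vec_zero]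
  simp

theorem nm_U (i : Fin 2) (m : Fin 3 → ℤ) : (Λ.nm (Λ.U i m)).natAbs = (Λ.nm m).natAbs := by
  have h : ((Λ.nm (Λ.U i m)).natAbs : ℝ) = ((Λ.nm m).natAbs : ℝ) := by
    rw [nm_abs, nm_abs, vec_U, Finset.prod_mul_distrib, abs_mul, Λ.e_norm i, one_mul]
  exact_mod_cast h

end Lat

end Pool.Agent.Helper71.BDA
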