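import Pool.Agent.Helper71.BDA.BasicTh
import Pool.Agent.Helper71.BDA.BasicCrd

/-!
BDA block BL3. The cone function `Phi` (may use the stubs of BasicTh, BasicCrd).
Hint: on the support of `Phi` the coordinates `c₁, c₂` lie in `[0,2]`, so `|x_j| = exp (c₀ + c₁ L₀ⱼ + c₂ L₁ⱼ)` is comparable with `exp c₀`.
`orbit_sum`: the coordinates of the orbit point are `c₁ + k₁`, `c₂ + k₂` (induction on `k`), product of two `th_hasSum`.
-/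

open Complex
open scoped ContDiff

namespace Pool.Agent.Helper71.BDA

namespace Lat

variable (Λ : Lat)

/-! ### the function `Phi` -/

variable (n : Fin 2 → ℤ)

theorem Phi_zero : Λ.Phi n 0 = 0 := by
  unfold Phi
  rw [if_neg]
  intro h
  exact h 0 rfl

theorem chi_norm (x : Fin 3 → ℝ) : ‖Λ.chi n x‖ = 1 := by
  unfold chi
  rw [Complex.norm_exp]
  have : (2 * (Real.pi : ℂ) * I * ((n 0 : ℂ) * (Λ.crd x 1 : ℂ) + (n 1 : ℂ) * (Λ.crd x 2 : ℂ))) =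
      ((2 * Real.pi * (n 0 * Λ.crd x 1 + n 1 * Λ.crd x 2) : ℝ) : ℂ) * I := by
    push_cast; ring
  rw [this]
  simp

theorem Phi_norm_le (x : Fin 3 → ℝ) : ‖Λ.Phi n x‖ ≤ 1 := by
  unfold Phi
  split_ifs
  · rw [norm_mul, chi_norm, mul_one, Complex.norm_real, Real.norm_eq_abs, abs_mul]
    have h1 := th_abs_le (Λ.crd x 1)
    have h2 := th_abs_le (Λ.crd x 2)
    exact mul_le_one₀ h1 (abs_nonneg _) h2
  · simp

theorem Phi_smooth : ContDiffOn ℝ ∞ (Λ.Phi n) {x | ∀ j, x j ≠ 0} := by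
  have h1 := Λ.crd_contDiffOn 1
  have h2 := Λ.crd_contDiffOn 2
  have h3 : ContDiffOn ℝ ∞ (fun x => ((th (Λ.crd x 1) * th (Λ.crd x 2) : ℝ) : ℂ) * Λ.chi n x) {x | ∀ j, x j ≠ 0} := by
    refine ContDiffOn.mul ?_ ?_
    · exact ofRealCLM.contDiff.comp_contDiffOn ((th_smooth.comp_contDiffOn h1).mul (th_smooth.comp_contDiffOn h2))
    · unfold chi
      refine Complex.contDiff_exp.comp_contDiffOn ?_
      refine ContDiffOn.mul contDiffOn_const ?_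
      exact (contDiffOn_const.mul (ofRealCLM.contDiff.comp_contDiffOn h1)).add
        (contDiffOn_const.mul (ofRealCLM.contDiff.comp_contDiffOn h2))
  refine h3.congr fun x hx => ?_
  have hx' : ∀ j, x j ≠ 0 := hx
  unfold Phi
  rw [if_pos hx']

theorem Phi_hom (t : ℝ) (x : Fin 3 → ℝ) (ht : 0 < t) : Λ.Phi n (t • x) = Λ.Phi n x := by
  by_cases hx : ∀ j, x j ≠ 0
  · have hx' : ∀ j, (t • x) j ≠ 0 := fun j => by
      rw [Pi.smul_apply, smul_eq_mul]; exact mul_ne_zero ht.ne' (hx j)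
    obtain ⟨-, h1, h2⟩ := Λ.crd_smul x hx ht
    unfold Phi chi
    rw [if_pos hx, if_pos hx', h1, h2]
  · have hx' : ¬ ∀ j, (t • x) j ≠ 0 := by
      intro h
      apply hx
      intro j hj
      apply h j
      rw [Pi.smul_apply, smul_eq_mul, hj, mul_zero]
    unfold Phi
    rw [if_neg hx, if_neg hx']

/-- the bound for the unit part on the support -/
private theorem supp_aux : ∃ B : ℝ, 0 ≤ B ∧ ∀ (n : Fin 2 → ℤ) (x : Fin 3 → ℝ), Λ.Phi n x ≠ 0 →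
    (∀ j, x j ≠ 0) ∧ ∀ j, |Real.log |x j| - Λ.crd x 0| ≤ B := by
  refine ⟨2 * ∑ j, (|Λ.L 0 j| + |Λ.L 1 j|), by positivity, fun n x h => ?_⟩
  have hx : ∀ j, x j ≠ 0 := by
    by_contra hcon
    apply h
    unfold Phi
    rw [if_neg hcon]
  have hne : th (Λ.crd x 1) ≠ 0 ∧ th (Λ.crd x 2) ≠ 0 := by
    unfold Phi at h
    rw [if_pos hx] at h
    have h1 := left_ne_zero_of_mul h
    have h2 : th (Λ.crd x 1) * th (Λ.crd x 2) ≠ 0 := by exact_mod_cast h1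
    exact ⟨left_ne_zero_of_mul h2, right_ne_zero_of_mul h2⟩
  have hb : ∀ b : ℝ, th b ≠ 0 → |b| ≤ 2 := by
    intro b hb
    have h1 : 0 < b := by
      by_contra hcon
      exact hb (th_zero_of_le (not_lt.1 hcon))
    have h2 : b < 2 := by
      by_contra hcon
      exact hb (th_zero_of_ge (not_lt.1 hcon))
    rw [abs_of_pos h1]; exact h2.le
  refine ⟨hx, fun j => ?_⟩
  rw [Λ.log_eq x j]
  have e : Λ.crd x 0 + Λ.crd x 1 * Λ.L 0 j + Λ.crd x 2 * Λ.L 1 j - Λ.crd x 0 = Λ.crd x 1 * Λ.L 0 j + Λ.crd x 2 * Λ.L 1 j := by ring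
  rw [e]
  have h1 := hb _ hne.1
  have h2 := hb _ hne.2
  calc |Λ.crd x 1 * Λ.L 0 j + Λ.crd x 2 * Λ.L 1 j| ≤ |Λ.crd x 1 * Λ.L 0 j| + |Λ.crd x 2 * Λ.L 1 j| := abs_add_le _ _
    _ ≤ 2 * |Λ.L 0 j| + 2 * |Λ.L 1 j| := by
        rw [abs_mul, abs_mul]
        exact add_le_add (mul_le_mul_of_nonneg_right h1 (abs_nonneg _)) (mul_le_mul_of_nonneg_right h2 (abs_nonneg _))
    _ = 2 * (|Λ.L 0 j| + |Λ.L 1 j|) := by ring
    _ ≤ 2 * ∑ j, (|Λ.L 0 j| + |Λ.L 1 j|) := by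
        refine mul_le_mul_of_nonneg_left ?_ (by norm_num)
        exact Finset.single_le_sum (f := fun j => |Λ.L 0 j| + |Λ.L 1 j|) (fun i _ => by positivity) (Finset.mem_univ j)

/-- on the support of `Phi` all coordinates are comparable; `K` does not depend on `n` -/
theorem Phi_supp : ∃ K : ℝ, 1 < K ∧ ∀ (n : Fin 2 → ℤ) (x : Fin 3 → ℝ), Λ.Phi n x ≠ 0 → ∀ i j, |x i| ≤ K * |x j| := by
  obtain ⟨B, hB, h⟩ := Λ.supp_aux
  refine ⟨Real.exp (2 * B + 1), by rw [Real.one_lt_exp_iff]; linarith, fun n x hx i j => ?_⟩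
  obtain ⟨h0, h1⟩ := h n x hx
  have hi := abs_le.1 (h1 i)
  have hj := abs_le.1 (h1 j)
  have ei : |x i| = Real.exp (Real.log |x i|) := (Real.exp_log (abs_pos.2 (h0 i))).symm
  have ej : |x j| = Real.exp (Real.log |x j|) := (Real.exp_log (abs_pos.2 (h0 j))).symm
  rw [ei, ej, ← Real.exp_add, Real.exp_le_exp]
  linarith [hi.2, hj.1]

/-- on the support of `Phi` every coordinate is comparable with the geometric mean -/
theorem Phi_supp' : ∃ K : ℝ, 1 < K ∧ ∀ (n : Fin 2 → ℤ) (x : Fin 3 → ℝ), Λ.Phi n x ≠ 0 →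
    ∀ j, |x j| ≤ K * Real.exp (Λ.crd x 0) ∧ Real.exp (Λ.crd x 0) ≤ K * |x j| := by
  obtain ⟨B, hB, h⟩ := Λ.supp_aux
  refine ⟨Real.exp (B + 1), by rw [Real.one_lt_exp_iff]; linarith, fun n x hx j => ?_⟩
  obtain ⟨h0, h1⟩ := h n x hx
  have hj := abs_le.1 (h1 j)
  have ej : |x j| = Real.exp (Real.log |x j|) := (Real.exp_log (abs_pos.2 (h0 j))).symm
  constructor
  · rw [ej, ← Real.exp_add, Real.exp_le_exp]
    linarith [hj.2]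
  · rw [ej, ← Real.exp_add, Real.exp_le_exp]
    linarith [hj.1]

/-- `χ` in terms of the infinity type -/
theorem chi_eq {nu : Fin 3 → ℝ} (h : Λ.IsType nu n) (x : Fin 3 → ℝ) (hx : ∀ j, x j ≠ 0) :
    Λ.chi n x = ∏ j, ((|x j| : ℝ) : ℂ) ^ (I * nu j) := by
  have h1 : ∀ j, ((|x j| : ℝ) : ℂ) ^ (I * nu j) = exp (((nu j * Real.log |x j| : ℝ) : ℂ) * I) := by
    intro j
    have hp : 0 < |x j| := abs_pos.2 (hx j)
    rw [cpow_def_of_ne_zero (by exact_mod_cast hp.ne'), ← ofReal_log hp.le]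
    congr 1
    push_cast; ring
  simp only [h1]
  rw [← exp_sum, ← Finset.sum_mul, ← ofReal_sum]
  have h2 : ∑ j, nu j * Real.log |x j| = 2 * Real.pi * (n 0 * Λ.crd x 1 + n 1 * Λ.crd x 2) := by
    have h3 : ∑ j, nu j * Real.log |x j| = Λ.crd x 0 * ∑ j, nu j + Λ.crd x 1 * ∑ j, nu j * Λ.L 0 j + Λ.crd x 2 * ∑ j, nu j * Λ.L 1 j := by
      rw [Finset.mul_sum, Finset.mul_sum, Finset.mul_sum, ← Finset.sum_add_distrib, ← Finset.sum_add_distrib]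
      refine Finset.sum_congr rfl fun j _ => ?_
      rw [Λ.log_eq x j]; ring
    rw [h3, h.sum, h.dot 0, h.dot 1]; ring
  rw [h2]
  unfold chi
  congr 1
  push_cast; ring

private theorem U_ne (i : Fin 2) {m : Fin 3 → ℤ} (hm : m ≠ 0) : Λ.U i m ≠ 0 := by
  intro h
  apply hm
  apply (Λ.U i).injective
  rw [h, Λ.U_zero]

private theorem Us_ne (i : Fin 2) {m : Fin 3 → ℤ} (hm : m ≠ 0) : (Λ.U i).symm m ≠ 0 := by
  intro h
  apply hm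
  have := congrArg (Λ.U i) h
  rw [Equiv.apply_symm_apply, Λ.U_zero] at this
  exact this

private theorem crd_U0 {m : Fin 3 → ℤ} (hm : m ≠ 0) :
    Λ.crd (Λ.vec (Λ.U 0 m)) 1 = Λ.crd (Λ.vec m) 1 + 1 ∧ Λ.crd (Λ.vec (Λ.U 0 m)) 2 = Λ.crd (Λ.vec m) 2 := by
  rw [Λ.vec_U]
  exact (Λ.crd_e0 _ (Λ.vec_ne hm)).2

private theorem crd_U1 {m : Fin 3 → ℤ} (hm : m ≠ 0) :
    Λ.crd (Λ.vec (Λ.U 1 m)) 1 = Λ.crd (Λ.vec m) 1 ∧ Λ.crd (Λ.vec (Λ.U 1 m)) 2 = Λ.crd (Λ.vec m) 2 + 1 := by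
  rw [Λ.vec_U]
  exact (Λ.crd_e1 _ (Λ.vec_ne hm)).2

private theorem crd_U0pow {m : Fin 3 → ℤ} (hm : m ≠ 0) (k : ℤ) :
    ((Λ.U 0 : Equiv.Perm (Fin 3 → ℤ)) ^ k) m ≠ 0 ∧
    Λ.crd (Λ.vec (((Λ.U 0 : Equiv.Perm (Fin 3 → ℤ)) ^ k) m)) 1 = Λ.crd (Λ.vec m) 1 + k ∧
    Λ.crd (Λ.vec (((Λ.U 0 : Equiv.Perm (Fin 3 → ℤ)) ^ k) m)) 2 = Λ.crd (Λ.vec m) 2 := by
  induction k using Int.induction_on with
  | zero => simp [hm]
  | succ k ih =>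
    obtain ⟨h0, h1, h2⟩ := ih
    rw [add_comm, zpow_one_add, Equiv.Perm.mul_apply]
    obtain ⟨h3, h4⟩ := Λ.crd_U0 h0
    refine ⟨Λ.U_ne 0 h0, ?_, ?_⟩
    · rw [h3, h1]; push_cast; ring
    · rw [h4, h2]
  | pred k ih =>
    obtain ⟨h0, h1, h2⟩ := ih
    have e : (-(k : ℤ) - 1) = -1 + -(k : ℤ) := by ring
    rw [e, zpow_add, zpow_neg_one, Equiv.Perm.mul_apply]
    set m' := ((Λ.U 0 : Equiv.Perm (Fin 3 → ℤ)) ^ (-(k : ℤ))) m with hm'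
    have h5 : ((Λ.U 0 : Equiv.Perm (Fin 3 → ℤ))⁻¹) m' = (Λ.U 0).symm m' := rfl
    rw [h5]
    have h6 := Λ.Us_ne 0 h0
    obtain ⟨h3, h4⟩ := Λ.crd_U0 h6
    rw [Equiv.apply_symm_apply] at h3 h4
    refine ⟨h6, ?_, ?_⟩
    · have : Λ.crd (Λ.vec ((Λ.U 0).symm m')) 1 = Λ.crd (Λ.vec m') 1 - 1 := by rw [h3]; ring
      rw [this, h1]; push_cast; ring
    · rw [← h4, h2]

private theorem crd_U1pow {m : Fin 3 → ℤ} (hm : m ≠ 0) (k : ℤ) :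
    ((Λ.U 1 : Equiv.Perm (Fin 3 → ℤ)) ^ k) m ≠ 0 ∧
    Λ.crd (Λ.vec (((Λ.U 1 : Equiv.Perm (Fin 3 → ℤ)) ^ k) m)) 1 = Λ.crd (Λ.vec m) 1 ∧
    Λ.crd (Λ.vec (((Λ.U 1 : Equiv.Perm (Fin 3 → ℤ)) ^ k) m)) 2 = Λ.crd (Λ.vec m) 2 + k := by
  induction k using Int.induction_on with
  | zero => simp [hm]
  | succ k ih =>
    obtain ⟨h0, h1, h2⟩ := ih
    rw [add_comm, zpow_one_add, Equiv.Perm.mul_apply]
    obtain ⟨h3, h4⟩ := Λ.crd_U1 h0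
    refine ⟨Λ.U_ne 1 h0, ?_, ?_⟩
    · rw [h3, h1]
    · rw [h4, h2]; push_cast; ring
  | pred k ih =>
    obtain ⟨h0, h1, h2⟩ := ih
    have e : (-(k : ℤ) - 1) = -1 + -(k : ℤ) := by ring
    rw [e, zpow_add, zpow_neg_one, Equiv.Perm.mul_apply]
    set m' := ((Λ.U 1 : Equiv.Perm (Fin 3 → ℤ)) ^ (-(k : ℤ))) m with hm'
    have h5 : ((Λ.U 1 : Equiv.Perm (Fin 3 → ℤ))⁻¹) m' = (Λ.U 1).symm m' := rfl
    rw [h5]
    have h6 := Λ.Us_ne 1 h0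
    obtain ⟨h3, h4⟩ := Λ.crd_U1 h6
    rw [Equiv.apply_symm_apply] at h3 h4
    refine ⟨h6, ?_, ?_⟩
    · rw [← h3, h1]
    · have : Λ.crd (Λ.vec ((Λ.U 1).symm m')) 2 = Λ.crd (Λ.vec m') 2 - 1 := by rw [h4]; ring
      rw [this, h2]; push_cast; ring

/-- multiplication by units shifts the coordinates in the summation over the unit group: partition of unity over orbits.
`(Λ.U 0 ^ k.1 * Λ.U 1 ^ k.2) m` is the action of `ε₀^k₁ ε₁^k₂` (powers in `Equiv.Perm`). -/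
theorem orbit_sum {m : Fin 3 → ℤ} (hm : m ≠ 0) :
    HasSum (fun k : ℤ × ℤ =>
      th (Λ.crd (Λ.vec (((Λ.U 0 : Equiv.Perm (Fin 3 → ℤ)) ^ k.1 * (Λ.U 1 : Equiv.Perm (Fin 3 → ℤ)) ^ k.2) m)) 1) *
      th (Λ.crd (Λ.vec (((Λ.U 0 : Equiv.Perm (Fin 3 → ℤ)) ^ k.1 * (Λ.U 1 : Equiv.Perm (Fin 3 → ℤ)) ^ k.2) m)) 2)) 1 := by
  have hf : (fun k : ℤ × ℤ =>
      th (Λ.crd (Λ.vec (((Λ.U 0 : Equiv.Perm (Fin 3 → ℤ)) ^ k.1 * (Λ.U 1 : Equiv.Perm (Fin 3 → ℤ)) ^ k.2) m)) 1) *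
      th (Λ.crd (Λ.vec (((Λ.U 0 : Equiv.Perm (Fin 3 → ℤ)) ^ k.1 * (Λ.U 1 : Equiv.Perm (Fin 3 → ℤ)) ^ k.2) m)) 2)) =
      fun k : ℤ × ℤ => th (Λ.crd (Λ.vec m) 1 + k.1) * th (Λ.crd (Λ.vec m) 2 + k.2) := by
    funext k
    obtain ⟨h0, h1, h2⟩ := Λ.crd_U1pow hm k.2
    obtain ⟨-, h4, h5⟩ := Λ.crd_U0pow h0 k.1
    rw [Equiv.Perm.mul_apply, h4, h5, h1, h2]
  rw [hf]
  generalize Λ.crd (Λ.vec m) 1 = c1
  generalize Λ.crd (Λ.vec m) 2 = c2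
  have s1 : Summable fun k : ℤ => ‖th (c1 + k)‖ := (th_abs_sum c1).1
  have s2 : Summable fun k : ℤ => ‖th (c2 + k)‖ := (th_abs_sum c2).1
  have h3 : HasSum (fun k : ℤ × ℤ => th (c1 + k.1) * th (c2 + k.2)) (1 * 1) :=
    (th_hasSum c1).mul (th_hasSum c2) (summable_mul_of_summable_norm s1 s2)
  rwa [mul_one] at h3

end Lat

end Pool.Agent.Helper71.BDA
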