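import Pool.Agent.Helper71.BDA.Defs

/-!
BDA block BL1. The function `th` (telescoping partition of unity).
Hint: `th_hasSum`: only `m` with `0 ≤ b + m ≤ 2` contribute (at most 3 integers), telescoping sum.
-/

open Complex
open scoped ContDiff

namespace Pool.Agent.Helper71.BDA

/-! ### the function `th` -/

theorem th_smooth : ContDiff ℝ ∞ th := by
  have h1 : ContDiff ℝ ∞ Real.smoothTransition := Real.smoothTransition.contDiff
  have h2 : ContDiff ℝ ∞ (fun b : ℝ => Real.smoothTransition (b - 1)) :=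
    h1.comp (contDiff_id.sub contDiff_const)
  exact h1.sub h2

theorem th_zero_of_le {b : ℝ} (hb : b ≤ 0) : th b = 0 := by
  unfold th
  rw [Real.smoothTransition.zero_of_nonpos hb,
    Real.smoothTransition.zero_of_nonpos (by linarith), sub_zero]

theorem th_zero_of_ge {b : ℝ} (hb : 2 ≤ b) : th b = 0 := by
  unfold th
  rw [Real.smoothTransition.one_of_one_le (by linarith),
    Real.smoothTransition.one_of_one_le (by linarith), sub_self]

theorem th_abs_le (b : ℝ) : |th b| ≤ 1 := by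
  unfold th
  have h1 := Real.smoothTransition.nonneg b
  have h2 := Real.smoothTransition.le_one b
  have h3 := Real.smoothTransition.nonneg (b - 1)
  have h4 := Real.smoothTransition.le_one (b - 1)
  rw [abs_le]
  constructor <;> linarith

/-- only the integers `-⌊b⌋` and `-⌊b⌋ + 1` contribute -/
theorem th_zero_off (b : ℝ) (m : ℤ) (hm : m ∉ ({-⌊b⌋, -⌊b⌋ + 1} : Finset ℤ)) : th (b + m) = 0 := by
  have h1 := Int.floor_le b
  have h2 := Int.lt_floor_add_one b
  rw [Finset.mem_insert, Finset.mem_singleton, not_or] at hm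
  rcases lt_trichotomy m (-⌊b⌋) with h | h | h
  · apply th_zero_of_le
    have : m + ⌊b⌋ ≤ -1 := by omega
    have h3 : (m : ℝ) + ⌊b⌋ ≤ -1 := by exact_mod_cast this
    linarith
  · exact absurd h hm.1
  · apply th_zero_of_ge
    have h4 : 2 ≤ m + ⌊b⌋ := by
      have := hm.2
      omega
    have h3 : (2 : ℝ) ≤ (m : ℝ) + ⌊b⌋ := by exact_mod_cast h4
    linarith

theorem th_pair_ne (b : ℝ) : -⌊b⌋ ∉ ({-⌊b⌋ + 1} : Finset ℤ) := by
  rw [Finset.mem_singleton]
  omega

/-- partition of unity -/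
theorem th_hasSum (b : ℝ) : HasSum (fun m : ℤ => th (b + m)) 1 := by
  have h : HasSum (fun m : ℤ => th (b + m)) (∑ m ∈ ({-⌊b⌋, -⌊b⌋ + 1} : Finset ℤ), th (b + m)) :=
    hasSum_sum_of_ne_finset_zero (th_zero_off b)
  have h1 := Int.floor_le b
  have h2 := Int.lt_floor_add_one b
  have e : ∑ m ∈ ({-⌊b⌋, -⌊b⌋ + 1} : Finset ℤ), th (b + m) = 1 := by
    rw [Finset.sum_insert (th_pair_ne b), Finset.sum_singleton]
    unfold th
    have e1 : b + ((-⌊b⌋ + 1 : ℤ) : ℝ) - 1 = b + ((-⌊b⌋ : ℤ) : ℝ) := by push_cast; ring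
    rw [e1, Real.smoothTransition.zero_of_nonpos
        (x := b + ((-⌊b⌋ : ℤ) : ℝ) - 1) (by push_cast; linarith),
      Real.smoothTransition.one_of_one_le
        (x := b + ((-⌊b⌋ + 1 : ℤ) : ℝ)) (by push_cast; linarith)]
    ring
  rwa [e] at h

/-- absolute partition bound -/
theorem th_abs_sum (b : ℝ) : Summable (fun m : ℤ => |th (b + m)|) ∧ ∑' m : ℤ, |th (b + m)| ≤ 3 := by
  have h : HasSum (fun m : ℤ => |th (b + m)|)
      (∑ m ∈ ({-⌊b⌋, -⌊b⌋ + 1} : Finset ℤ), |th (b + m)|) :=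
    hasSum_sum_of_ne_finset_zero (fun m hm => by rw [th_zero_off b m hm, abs_zero])
  refine ⟨h.summable, ?_⟩
  rw [h.tsum_eq, Finset.sum_insert (th_pair_ne b), Finset.sum_singleton]
  have h1 := th_abs_le (b + ((-⌊b⌋ : ℤ) : ℝ))
  have h2 := th_abs_le (b + ((-⌊b⌋ + 1 : ℤ) : ℝ))
  linarith

end Pool.Agent.Helper71.BDA
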