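import Pool.Agent.Helper71.BDA.EntS

/-!
BDA block CN. Analytic continuation and polynomial growth of `Z_w` (use the stubs mellin_S, mellin_S_entire, mellin_S_bound, Hb_*).
Write `E_τ(s) = mellin (S_τ) (3s)`. Define `Zc(s) = E_{3 Im s}(s) / Hb(3 Re s)` (note `3s - iτ = 3 Re s` for `τ = 3 Im s`).
For all `τ, τ'`: `E_τ(s) Hb(3s - iτ') = E_τ'(s) Hb(3s - iτ)` for all `s` (both sides entire, equal for `Re s > 1`; identity theorem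
`AnalyticOnNhd.eq_of_eventuallyEq`). Hence `Zc(s) = E_τ(s)/Hb(3s - iτ)` whenever `Hb(3s - iτ) ≠ 0`, in particular near a given `s₀` with `τ = 3 Im s₀`:
`Zc` is differentiable at `s₀`. Growth: `|Zc(s)| ≤ C (1 + 3|Im s|)^N / min_{[3σ₁, 3σ₂]} Hb`.
-/

open Complex

namespace Pool.Agent.Helper71.BDA

theorem Lat.continuation (Λ : Lat) (n : Fin 2 → ℤ) (hn : n ≠ 0) {q : ℕ} (hq : 0 < q) {w : (Fin 3 → ℤ) → ℂ} (hw : Per q w) :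
    ∃ Zc : ℂ → ℂ, Differentiable ℂ Zc ∧ (∀ s, 1 < s.re → Zc s = Λ.Z w n s) ∧
      ∀ σ₁ σ₂ : ℝ, ∃ A C : ℝ, ∀ s : ℂ, σ₁ ≤ s.re → s.re ≤ σ₂ → ‖Zc s‖ ≤ C * (1 + |s.im|) ^ A := by
  sorry

end Pool.Agent.Helper71.BDA
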