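import Pool.Agent.Helper19.BD.Interface

/-!
MP_bd232a_nt, part A: interface between the arithmetic (parts N, A3: helper88) and the analysis (parts A0, A1, A2: helper71).
`Lat` = a basis of `O` in `ℝ³` (in coordinates `Fin 3 → ℤ`), two independent units, and the inverse different.
-/

open Complex
open scoped ContDiff

namespace Pool.Agent.Helper71.BDA

/-- The lattice data of the ring of integers of a totally real cubic field of discriminant `49`. -/
structure Lat where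
  /-- `A.mulVec m` = the vector of the three real conjugates of the element with coordinates `m` -/
  A : Matrix (Fin 3) (Fin 3) ℝ
  detA : |A.det| = 7
  /-- the norm form -/
  nm : (Fin 3 → ℤ) → ℤ
  nm_eq : ∀ m, (nm m : ℝ) = ∏ j, A.mulVec (fun i => (m i : ℝ)) j
  nm_ne : ∀ m, m ≠ 0 → nm m ≠ 0
  nm_mod : ∀ (q : ℤ) (m k : Fin 3 → ℤ), q ∣ nm (m + q • k) - nm m
  /-- the conjugates of two units `ε₀, ε₁` -/
  e : Fin 2 → Fin 3 → ℝ
  e_norm : ∀ i, |∏ j, e i j| = 1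
  /-- multiplication by `ε_i` -/
  U : Fin 2 → (Fin 3 → ℤ) ≃ (Fin 3 → ℤ)
  U_spec : ∀ i m j, A.mulVec (fun k => (U i m k : ℝ)) j = e i j * A.mulVec (fun k => (m k : ℝ)) j
  U_comm : ∀ m, U 0 (U 1 m) = U 1 (U 0 m)
  /-- the units are independent -/
  indep : (Matrix.of fun j i : Fin 3 => (![1, Real.log |e 0 j|, Real.log |e 1 j|] : Fin 3 → ℝ) i).det ≠ 0
  /-- the different: the dual lattice of `O` is `δ⁻¹ O` -/
  del : Fin 3 → ℝ
  del_norm : |∏ j, del j| = 49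
  D : (Fin 3 → ℤ) ≃ (Fin 3 → ℤ)
  D_spec : ∀ n j, A.mulVec (fun k => (D n k : ℝ)) j = del j * (A⁻¹).transpose.mulVec (fun k => (n k : ℝ)) j

namespace Lat

variable (Λ : Lat)

/-- the vector of conjugates -/
noncomputable def vec (m : Fin 3 → ℤ) : Fin 3 → ℝ := Λ.A.mulVec (fun i => (m i : ℝ))

/-- `L i j = log |σ_j ε_i|` -/
noncomputable def L (i : Fin 2) (j : Fin 3) : ℝ := Real.log |Λ.e i j|

/-- the matrix with columns `(1,1,1), L₀, L₁` -/
noncomputable def M : Matrix (Fin 3) (Fin 3) ℝ :=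
  Matrix.of fun j i : Fin 3 => (![1, Λ.L 0 j, Λ.L 1 j] : Fin 3 → ℝ) i

/-- logarithmic coordinates: `log |x_j| = c₀ + c₁ L₀ⱼ + c₂ L₁ⱼ`; `c₀ = (1/3) log |N x|` -/
noncomputable def crd (x : Fin 3 → ℝ) : Fin 3 → ℝ := Λ.M⁻¹.mulVec (fun j => Real.log |x j|)

end Lat

/-- smooth function supported in `[0,2]` with `∑ th (b + m) = 1` -/
noncomputable def th (b : ℝ) : ℝ := Real.smoothTransition b - Real.smoothTransition (b - 1)

namespace Lat

variable (Λ : Lat)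

/-- `χ(x) = exp (2πi (n₀ c₁ + n₁ c₂))` -/
noncomputable def chi (n : Fin 2 → ℤ) (x : Fin 3 → ℝ) : ℂ :=
  exp (2 * Real.pi * I * (n 0 * Λ.crd x 1 + n 1 * Λ.crd x 2))

open Classical in
/-- the cone function `Ψ₀ χ` -/
noncomputable def Phi (n : Fin 2 → ℤ) (x : Fin 3 → ℝ) : ℂ :=
  if ∀ j, x j ≠ 0 then (th (Λ.crd x 1) * th (Λ.crd x 2) : ℝ) * Λ.chi n x else 0

/-- the Dirichlet coefficients `a_k = ½ ∑_{|N x| = k} Ψ₀(x) χ(x)` -/
noncomputable def coef (n : Fin 2 → ℤ) (k : ℕ) : ℂ :=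
  (1 / 2) * ∑' m : Fin 3 → ℤ, if (Λ.nm m).natAbs = k then Λ.Phi n (Λ.vec m) else 0

/-- `ν` is an infinity type with integer data `n`: `ν ⋅ L_i = 2π n_i`, `∑ ν_j = 0` -/
structure IsType (nu : Fin 3 → ℝ) (n : Fin 2 → ℤ) : Prop where
  sum : ∑ j, nu j = 0
  dot : ∀ i, ∑ j, nu j * Λ.L i j = 2 * Real.pi * n i

end Lat

end Pool.Agent.Helper71.BDA
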