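import Pool.Agent.Helper71.BDA.Basic

/-! MP_bd232a_nt, part A1: definitions. -/

open Complex
open scoped ContDiff

namespace Pool.Agent.Helper71.BDA

/-- the radial bump: smooth, `≥ 0`, equal to `1` on `[-1,1]`, zero for `|y| ≥ √2` -/
noncomputable def bmp (y : ℝ) : ℝ := Real.smoothTransition (2 - y ^ 2)

/-- the transform `H(z) = ∫ bmp(y) e^{z y} dy` of the bump -/
noncomputable def Hb (z : ℂ) : ℂ := ∫ y : ℝ, exp (z * y) * ((bmp y : ℝ) : ℂ)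

namespace Lat

variable (Λ : Lat)

/-- the test function `G_τ(x) = e^{-iτ c₀(x)} bmp(c₀(x)) Φ(x)` -/
noncomputable def G (n : Fin 2 → ℤ) (τ : ℝ) (x : Fin 3 → ℝ) : ℂ :=
  exp (-(I * τ * Λ.crd x 0)) * (((bmp (Λ.crd x 0) : ℝ) : ℂ) * Λ.Phi n x)

/-- the lattice sum `S_τ(t) = ∑ w(m) G_τ(t v_m)` -/
noncomputable def S (w : (Fin 3 → ℤ) → ℂ) (n : Fin 2 → ℤ) (τ t : ℝ) : ℂ :=
  ∑' m : Fin 3 → ℤ, w m * Λ.G n τ (t • Λ.vec m)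

/-- the zeta function `Z_w(s) = ∑ w(m) Φ(v_m) |N m|^{-s}` -/
noncomputable def Z (w : (Fin 3 → ℤ) → ℂ) (n : Fin 2 → ℤ) (s : ℂ) : ℂ :=
  ∑' m : Fin 3 → ℤ, w m * Λ.Phi n (Λ.vec m) * ((Λ.nm m).natAbs : ℂ) ^ (-s)

end Lat

/-- `w` is periodic modulo `q` -/
def Per (q : ℕ) (w : (Fin 3 → ℤ) → ℂ) : Prop := ∀ m k : Fin 3 → ℤ, w (m + (q : ℤ) • k) = w m

end Pool.Agent.Helper71.BDA
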