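import Pool.Agent.Helper71.BDA.MelS

/-!
BDA block ES. The Mellin transform of `S_τ` is entire with bounds polynomial in `τ` (use the stubs S_large, S_cont, S_mid, S_small).
`mellin_differentiableAt_of_isBigO_rpow` (or differentiate under the integral); bound: `∫_0^1 t^{N-3+3σ-1} dt + C ∫_1^5 t^{3σ-1} dt`, `N - 3 - 3K ≥ 1`.
-/

open Complex MeasureTheory Set

namespace Pool.Agent.Helper71.BDA

namespace Lat

variable (Λ : Lat) (n : Fin 2 → ℤ)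

theorem mellin_S_entire (hn : n ≠ 0) {q : ℕ} (hq : 0 < q) {w : (Fin 3 → ℤ) → ℂ} (hw : Per q w) (τ : ℝ) :
    Differentiable ℂ (fun s : ℂ => mellin (Λ.S w n τ) (3 * s)) := by
  sorry

theorem mellin_S_bound (hn : n ≠ 0) {q : ℕ} (hq : 0 < q) {w : (Fin 3 → ℤ) → ℂ} (hw : Per q w) (K : ℝ) :
    ∃ (C : ℝ) (N : ℕ), 0 ≤ C ∧ ∀ (τ : ℝ) (s : ℂ), |s.re| ≤ K → ‖mellin (Λ.S w n τ) (3 * s)‖ ≤ C * (1 + |τ|) ^ N := by
  sorry

end Lat

end Pool.Agent.Helper71.BDA
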