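import Pool.Agent.Helper71.BDA.FT

/-!
BDA block FTB. Decay of the Fourier transform of `e^{-iτ u} G`, polynomially uniform in `τ`.
Induction on `N` (for all `G` at once). `N = 0`: the `L¹` norm. Step: for a coordinate direction `k`,
`2πi ξ_k FT(f)(ξ) = FT(∂_k f)(ξ)` (`f` is `C^∞` with compact support) and for `f = e^{-iτu} G`:
`∂_k f = e^{-iτu} (∂_k G) - iτ e^{-iτu} (∂_k u) G`, where `∂_k G` and `(∂_k u) G` (extended by `0`) are again `C^∞` with compact support in `V`.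
Choose `k` with `|ξ_k| = ‖ξ‖`; for `‖ξ‖ ≤ 1` use the case `N = 0`.
-/

open Complex
open scoped ContDiff

namespace Pool.Agent.Helper71.BDA

/-- the function `e^{-iτu} G` is smooth with compact support -/
theorem twist_smooth {V : Set (Fin 3 → ℝ)} (hV : IsOpen V) {u : (Fin 3 → ℝ) → ℝ} (hu : ContDiffOn ℝ ∞ u V)
    {G : (Fin 3 → ℝ) → ℂ} (hG : ContDiff ℝ ∞ G) (hc : HasCompactSupport G) (hs : tsupport G ⊆ V) (τ : ℝ) :
    ContDiff ℝ ∞ (fun x => exp (-(I * τ * u x)) * G x) ∧ HasCompactSupport (fun x => exp (-(I * τ * u x)) * G x) := by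
  sorry

theorem ft_decay {V : Set (Fin 3 → ℝ)} (hV : IsOpen V) {u : (Fin 3 → ℝ) → ℝ} (hu : ContDiffOn ℝ ∞ u V)
    {G : (Fin 3 → ℝ) → ℂ} (hG : ContDiff ℝ ∞ G) (hc : HasCompactSupport G) (hs : tsupport G ⊆ V) (N : ℕ) :
    ∃ C : ℝ, ∀ (τ : ℝ) (ξ : Fin 3 → ℝ),
      ‖FT (fun x => exp (-(I * τ * u x)) * G x) ξ‖ ≤ C * (1 + |τ|) ^ N * (1 + ‖ξ‖) ^ (-(N : ℝ)) := by
  sorry

end Pool.Agent.Helper71.BDA
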