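import Pool.Agent.Helper71.BDA.DefsA1

/-!
BDA block MZ. The integral of a cone function with nontrivial character vanishes.
Proof without logarithmic substitution: for `y ∈ ℝ`, `i = 0, 1` the diagonal map `D_y = diag (exp (y L i j))` has determinant 1 (`sum_L`) and
translates the coordinate `c_{i+1}` by `y` (`crd_exp_mul`). Put `J(y) = ∫ h(c₀) th(c₁ + y) th(c₂) e(n₀ c₁ + n₁ c₂) dx`.
(1) `J(0) = e(n₀ y) J(y)` (substitute `D_y`). (2) `J(y) = J(0)`: insert `1 = ∑_k th(c₁ + k)` into `J(y)` (only finitely many `k` matter, since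
`c₁ + y ∈ [0,2]`), substitute `D_{-k}` in the `k`-th term and sum `∑_k th(c₁ + y - k) = 1`. So `J(0) = e(n₀ y) J(0)` for all `y`; if `n₀ ≠ 0` take
`y = 1/(2 n₀)`. Same for `n₁`. (Alternative: push forward Lebesgue measure under `x ↦ log |x_j|`, then the linear substitution by `M`.)
-/

open Complex

namespace Pool.Agent.Helper71.BDA

theorem Lat.mean_zero (Λ : Lat) (n : Fin 2 → ℤ) (hn : n ≠ 0) (h : ℝ → ℂ) (hc : Continuous h) (hs : HasCompactSupport h) :
    ∫ x : Fin 3 → ℝ, h (Λ.crd x 0) * Λ.Phi n x = 0 := by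
  sorry

end Pool.Agent.Helper71.BDA
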