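import Pool.Agent.Helper71.BDA.FTB
import Pool.Agent.Helper71.BDA.MZ

/-!
BDA block GT. The test functions `G_τ` (use the stubs of `Basic*`, `FTB`, `MZ`).
`V = {x | ∀ j, x_j ≠ 0}`, `u = c₀`, `G₀ x = bmp(c₀ x) Φ(x)`: on the support of `G₀` one has `|c₀| ≤ √2` and `|x_j|` comparable with `e^{c₀}`
(`Phi_supp'`), so the support of `G₀` lies in a compact subset `{c ≤ |x_j| ≤ C}` of `V`; `G₀` is smooth on `V` and zero near the complement of that set.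
-/

open Complex
open scoped ContDiff

namespace Pool.Agent.Helper71.BDA

theorem bmp_smooth : ContDiff ℝ ∞ bmp := by
  sorry

theorem bmp_nonneg (y : ℝ) : 0 ≤ bmp y := by
  sorry

theorem bmp_le_one (y : ℝ) : bmp y ≤ 1 := by
  sorry

theorem bmp_zero {y : ℝ} (hy : 3 / 2 ≤ |y|) : bmp y = 0 := by
  sorry

theorem Hb_differentiable : Differentiable ℂ Hb := by
  sorry

theorem Hb_pos (x : ℝ) : 0 < (Hb x).re ∧ (Hb x).im = 0 := by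
  sorry

namespace Lat

variable (Λ : Lat) (n : Fin 2 → ℤ)

theorem G0_smooth : ContDiff ℝ ∞ (fun x => ((bmp (Λ.crd x 0) : ℝ) : ℂ) * Λ.Phi n x) := by
  sorry

theorem G0_compact : HasCompactSupport (fun x => ((bmp (Λ.crd x 0) : ℝ) : ℂ) * Λ.Phi n x) ∧
    tsupport (fun x => ((bmp (Λ.crd x 0) : ℝ) : ℂ) * Λ.Phi n x) ⊆ {x | ∀ j, x j ≠ 0} := by
  sorry

theorem G_continuous (τ : ℝ) : Continuous (Λ.G n τ) := by
  sorry

theorem G_compact (τ : ℝ) : HasCompactSupport (Λ.G n τ) := by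
  sorry

theorem G_norm_le (τ : ℝ) (x : Fin 3 → ℝ) : ‖Λ.G n τ x‖ ≤ 1 := by
  sorry

/-- uniform support bound -/
theorem G_supp : ∃ R : ℝ, 0 < R ∧ ∀ (τ : ℝ) (x : Fin 3 → ℝ), Λ.G n τ x ≠ 0 → ‖x‖ ≤ R := by
  sorry

theorem G_decay (N : ℕ) : ∃ C : ℝ, ∀ (τ : ℝ) (ξ : Fin 3 → ℝ),
    ‖FT (Λ.G n τ) ξ‖ ≤ C * (1 + |τ|) ^ N * (1 + ‖ξ‖) ^ (-(N : ℝ)) := by
  sorry

theorem G_mean (hn : n ≠ 0) (τ : ℝ) : FT (Λ.G n τ) 0 = 0 := by
  sorry

end Lat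

end Pool.Agent.Helper71.BDA
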