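import Pool.Agent.Helper71.BDA.SFacts

/-!
BDA block MS. The Mellin transform of `S_τ` for `Re s > 1`.
For `m ≠ 0`: `∫_0^∞ G_τ(t v) t^{3s-1} dt = Φ(v) e^{-3 s c₀(v)} Hb(3s - iτ)` (substitute `t = e^{y - c₀}`), `e^{-3 s c₀(v)} = |N m|^{-s}` (`crd_zero'`, `nm_abs`);
exchange sum and integral by `cone_summable` (`hasSum_integral_of_summable_integral_norm` or `integral_tsum`).
-/

open Complex MeasureTheory Set

namespace Pool.Agent.Helper71.BDA

namespace Lat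

variable (Λ : Lat) (n : Fin 2 → ℤ)

theorem mellin_S {q : ℕ} (hq : 0 < q) {w : (Fin 3 → ℤ) → ℂ} (hw : Per q w) (τ : ℝ) {s : ℂ} (hs : 1 < s.re) :
    mellin (Λ.S w n τ) (3 * s) = Hb (3 * s - I * τ) * Λ.Z w n s := by
  sorry

end Lat

end Pool.Agent.Helper71.BDA
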