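import Pool.Agent.Helper71.BDA.FT

/-!
BDA block PS. Summability over `ℤ³`.
The norm on `Fin 3 → ℝ` is the sup norm. Proof hint: the box `‖m‖ ≤ N` has `(2N+1)³` points; or compare with
`∏_j (1 + |m_j|)^(-4/3)`: `(1 + ‖m‖)^4 ≥ ∏ (1 + |m_j|)^(4/3)`, and `Summable` of a product over `Fin 3 → ℤ`.
For `pois_uniform`: for `x` in a bounded set, `1 + ‖x + m‖ ≥ (1 + ‖m‖) / (1 + ‖x‖)`.
-/

namespace Pool.Agent.Helper71.BDA

/-- the standard lattice of `ℝ³` -/
abbrev stdL : Submodule ℤ (Fin 3 → ℝ) := Submodule.span ℤ (Set.range (Pi.basisFun ℝ (Fin 3)))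

lemma finrank_stdL : Module.finrank ℤ stdL = 3 := by
  have h := Module.finrank_eq_card_basis ((Pi.basisFun ℝ (Fin 3)).restrictScalars ℤ)
  rw [Fintype.card_fin] at h
  exact h

lemma summable_stdL {p : ℝ} (hp : 3 < p) : Summable (fun z : stdL => ‖z‖ ^ (-p)) := by
  apply ZLattice.summable_norm_rpow
  rw [finrank_stdL]; push_cast; linarith

lemma cst_mem (m : Fin 3 → ℤ) : cst m ∈ stdL := by
  have h1 : cst m = ∑ i, (m i) • (Pi.basisFun ℝ (Fin 3)) i := by
    funext j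
    rw [Finset.sum_apply]
    simp [cst, Pi.basisFun_apply, Pi.single_apply]
  rw [h1]
  exact Submodule.sum_mem _ fun i _ => Submodule.smul_mem _ _ (Submodule.subset_span ⟨i, rfl⟩)

lemma cst_inj {m k : Fin 3 → ℤ} (h : cst m = cst k) : m = k := by
  funext j
  have h2 := congrFun h j
  simp only [cst] at h2
  exact_mod_cast h2

theorem summable_int3 {p : ℝ} (hp : 3 < p) : Summable (fun m : Fin 3 → ℤ => (1 + ‖cst m‖) ^ (-p)) := by
  classical
  have hinj : Function.Injective (fun m : Fin 3 → ℤ => (⟨cst m, cst_mem m⟩ : stdL)) := by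
    intro m k h
    exact cst_inj (congrArg Subtype.val h)
  have h1' : Summable (fun m : Fin 3 → ℤ => ‖(⟨cst m, cst_mem m⟩ : stdL)‖ ^ (-p)) :=
    (summable_stdL hp).comp_injective hinj
  have hn : ∀ m : Fin 3 → ℤ, ‖(⟨cst m, cst_mem m⟩ : stdL)‖ = ‖cst m‖ := fun m => rfl
  have h1 : Summable (fun m : Fin 3 → ℤ => ‖cst m‖ ^ (-p)) := by
    refine h1'.congr (fun m => ?_)
    rw [hn m]
  have h2 : Summable (fun m : Fin 3 → ℤ => if m = 0 then (1 : ℝ) else 0) :=
    summable_of_ne_finset_zero (s := {0}) (fun m hm => if_neg (by simpa using hm))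
  refine Summable.of_nonneg_of_le (fun m => by positivity) (fun m => ?_) (h1.add h2)
  by_cases hm : m = 0
  · subst hm
    have h0 : ‖cst 0‖ = 0 := by
      rw [norm_eq_zero]; funext j; simp [cst]
    rw [h0, add_zero, Real.one_rpow, if_pos rfl]
    have : (0 : ℝ) ≤ 0 ^ (-p) := Real.rpow_nonneg le_rfl _
    linarith
  · rw [if_neg hm, add_zero]
    have hpos : 0 < ‖cst m‖ := by
      rw [norm_pos_iff]
      intro h
      apply hm
      apply cst_inj
      rw [h]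
      funext j; simp [cst]
    exact Real.rpow_le_rpow_of_nonpos hpos (by linarith) (by linarith)

/-- uniform bound on bounded sets -/
theorem shift_le {p : ℝ} (hp : 0 < p) (x : Fin 3 → ℝ) (m : Fin 3 → ℤ) :
    (1 + ‖x + cst m‖) ^ (-p) ≤ (1 + ‖x‖) ^ p * (1 + ‖cst m‖) ^ (-p) := by
  have h1 : 1 + ‖cst m‖ ≤ (1 + ‖x‖) * (1 + ‖x + cst m‖) := by
    have h2 : ‖cst m‖ ≤ ‖x + cst m‖ + ‖x‖ := by
      calc ‖cst m‖ = ‖(x + cst m) - x‖ := by congr 1; abel
        _ ≤ _ := norm_sub_le _ _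
    nlinarith [norm_nonneg x, norm_nonneg (x + cst m),
      mul_nonneg (norm_nonneg x) (norm_nonneg (x + cst m))]
  have hA : (0 : ℝ) < 1 + ‖x‖ := by positivity
  have hB : (0 : ℝ) < 1 + ‖x + cst m‖ := by positivity
  have hC : (0 : ℝ) < 1 + ‖cst m‖ := by positivity
  have h3 : (1 + ‖cst m‖) ^ p ≤ (1 + ‖x‖) ^ p * (1 + ‖x + cst m‖) ^ p := by
    rw [← Real.mul_rpow hA.le hB.le]
    exact Real.rpow_le_rpow hC.le h1 hp.le
  rw [Real.rpow_neg hB.le, Real.rpow_neg hC.le, ← div_eq_mul_inv, le_div_iff₀ (by positivity),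
    inv_mul_le_iff₀ (by positivity)]
  linarith [mul_comm ((1 + ‖x‖) ^ p) ((1 + ‖x + cst m‖) ^ p)]

theorem summable_shift {p : ℝ} (hp : 3 < p) (x : Fin 3 → ℝ) :
    Summable (fun m : Fin 3 → ℤ => (1 + ‖x + cst m‖) ^ (-p)) := by
  refine Summable.of_nonneg_of_le (fun m => by positivity) (fun m => shift_le (by linarith) x m) ?_
  exact (summable_int3 hp).mul_left _

end Pool.Agent.Helper71.BDA
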