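import Pool.Agent.Helper71.BDA.PoisA
import Pool.Agent.Helper71.BDA.DefsA1

/-!
BDA block RS. Lattice sums of a function with vanishing integral.
Write `m = q k + r`, `r` in a finite set of residues: `∑_m w(m) g(t A m) = ∑_r w(r) ∑_k g(t q A k + t A r)`; apply `poissonA` to the matrix
`(t q) • A` (`dual ((tq)•A) n = (tq)⁻¹ • dual A n`, `det = (tq)³ det A`); the term `n = 0` vanishes (`FT g 0 = 0`); for `n ≠ 0`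
`‖dual A n‖ ≥ c ‖cst n‖` (`mulVec_lower` for `(A⁻¹)ᵀ`), hence `‖FT g‖ ≤ C (tq)^N c^{-N} ‖cst n‖^{-N}`, summable since `N ≥ 4`.
-/

namespace Pool.Agent.Helper71.BDA

theorem riemann_bound (A : Matrix (Fin 3) (Fin 3) ℝ) (hA : A.det ≠ 0) (q : ℕ) (hq : 0 < q) (w : (Fin 3 → ℤ) → ℂ) (hw : Per q w)
    (N : ℕ) (hN : 4 ≤ N) :
    ∃ B : ℝ, 0 ≤ B ∧ ∀ (g : (Fin 3 → ℝ) → ℂ) (C : ℝ), Continuous g → HasCompactSupport g →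
      (∀ ξ, ‖FT g ξ‖ ≤ C * (1 + ‖ξ‖) ^ (-(N : ℝ))) → FT g 0 = 0 →
      ∀ t : ℝ, 0 < t → t ≤ 1 →
        ‖∑' m : Fin 3 → ℤ, w m * g (t • A.mulVec (cst m))‖ ≤ B * C * t ^ ((N : ℝ) - 3) := by
  sorry

/-- a periodic weight is bounded -/
theorem Per.bounded {q : ℕ} (hq : 0 < q) {w : (Fin 3 → ℤ) → ℂ} (hw : Per q w) : ∃ B : ℝ, 0 ≤ B ∧ ∀ m, ‖w m‖ ≤ B := by
  sorry

end Pool.Agent.Helper71.BDA
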