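import Pool.Agent.Helper71.BDA.DefsA1
import Pool.Agent.Helper71.BDA.PoisA

/-!
BDA block SC. Absolute convergence of the zeta function and its size near `s = 1`; Dirichlet series.
On the support of `Φ`: `|N m| = ∏ |v_j| ≥ K⁻³ ‖v‖³ ≥ c ‖cst m‖³` (`Phi_supp`, `mulVec_lower`, `A_det`).
`cone_bound`: `∑_{m ≠ 0} ‖m‖^{-3σ} ≤ C/(σ-1)`: at most `(2N+1)³ - (2N-1)³ ≤ 26 N²` points with `‖m‖ = N`, and `∑ N^{-x} ≤ 1 + 1/(x-1)`; or count points
with `|N m| ≤ T` (at most `C T`) and sum by parts. `coef_*`: group the lattice points by `k = |N m|` (fibres of `natAbs ∘ nm`).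
-/

open Complex

namespace Pool.Agent.Helper71.BDA

namespace SC

/-- the cube `‖m‖ ≤ N` -/
noncomputable def bx (N : ℕ) : Finset (Fin 3 → ℤ) := Finset.Icc (fun _ => -(N : ℤ)) (fun _ => (N : ℤ))

theorem mem_bx {N : ℕ} {m : Fin 3 → ℤ} : m ∈ bx N ↔ ∀ i, |m i| ≤ N := by
  unfold bx
  rw [Finset.mem_Icc, Pi.le_def, Pi.le_def]
  constructor
  · intro h i
    exact abs_le.2 ⟨h.1 i, h.2 i⟩
  · intro h
    exact ⟨fun i => (abs_le.1 (h i)).1, fun i => (abs_le.1 (h i)).2⟩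

theorem card_bx (N : ℕ) : (bx N).card = (2 * N + 1) ^ 3 := by
  unfold bx
  rw [Pi.card_Icc]
  simp only [Int.card_Icc, Finset.prod_const, Finset.card_univ, Fintype.card_fin]
  congr 1
  omega

theorem bx_mono {M N : ℕ} (h : M ≤ N) : bx M ⊆ bx N := by
  intro m hm
  rw [mem_bx] at hm ⊢
  intro i
  have : (M : ℤ) ≤ N := by exact_mod_cast h
  exact (hm i).trans this

theorem norm_ge {N : ℕ} {m : Fin 3 → ℤ} (h : m ∉ bx N) : (N : ℝ) + 1 ≤ ‖cst m‖ := by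
  rw [mem_bx] at h
  push Not at h
  obtain ⟨i, hi⟩ := h
  have h1 : (N : ℤ) + 1 ≤ |m i| := hi
  have h2 : ((N : ℝ) + 1) ≤ |(m i : ℝ)| := by exact_mod_cast h1
  refine h2.trans ?_
  have := norm_le_pi_norm (cst m) i
  rwa [Real.norm_eq_abs] at this

theorem sum_bx (σ : ℝ) (hσ : 1 < σ) (N : ℕ) :
    ∑ m ∈ bx N, (1 + ‖cst m‖) ^ (-(3 * σ)) ≤ 1 + 26 * ∑ i ∈ Finset.range N, (1 + ((i + 1 : ℕ) : ℝ)) ^ (-σ) := by
  induction N with
  | zero =>
    have h0 : bx 0 = {0} := by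
      ext m
      rw [mem_bx, Finset.mem_singleton]
      constructor
      · intro h
        funext i
        have := h i
        simpa using this
      · rintro rfl i
        simp
    rw [h0, Finset.sum_singleton]
    have h1 : cst 0 = 0 := by
      funext i; simp [cst]
    rw [h1]
    simp
  | succ N ih =>
    have h1 : bx (N + 1) = bx N ∪ (bx (N + 1) \ bx N) := by
      rw [Finset.union_sdiff_of_subset (bx_mono (Nat.le_succ N))]
    rw [h1, Finset.sum_union Finset.disjoint_sdiff, Finset.sum_range_succ, mul_add, ← add_assoc]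
    refine add_le_add ih ?_
    have h2 : ∀ m ∈ bx (N + 1) \ bx N, (1 + ‖cst m‖) ^ (-(3 * σ)) ≤ (1 + ((N + 1 : ℕ) : ℝ)) ^ (-(3 * σ)) := by
      intro m hm
      rw [Finset.mem_sdiff] at hm
      have h3 := norm_ge hm.2
      refine Real.rpow_le_rpow_of_nonpos (by positivity) ?_ (by linarith)
      push_cast
      linarith
    have hcard : (bx (N + 1) \ bx N).card = 24 * N ^ 2 + 48 * N + 26 := by
      rw [Finset.card_sdiff_of_subset (bx_mono (Nat.le_succ N)), card_bx, card_bx]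
      have : (2 * (N + 1) + 1) ^ 3 = (24 * N ^ 2 + 48 * N + 26) + (2 * N + 1) ^ 3 := by ring
      rw [this, Nat.add_sub_cancel]
    have h4 := Finset.sum_le_card_nsmul _ _ _ h2
    refine h4.trans ?_
    rw [hcard, nsmul_eq_mul]
    set y : ℝ := 1 + ((N + 1 : ℕ) : ℝ) with hy
    have hy2 : 2 ≤ y := by rw [hy]; push_cast; have : (0:ℝ) ≤ N := Nat.cast_nonneg N; linarith
    have hy0 : 0 < y := by linarith
    have h5 : ((24 * N ^ 2 + 48 * N + 26 : ℕ) : ℝ) ≤ 26 * y ^ (2 : ℝ) := by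
      rw [hy]
      push_cast
      rw [Real.rpow_two]
      have : (0:ℝ) ≤ N := Nat.cast_nonneg N
      nlinarith
    calc ((24 * N ^ 2 + 48 * N + 26 : ℕ) : ℝ) * y ^ (-(3 * σ)) ≤ (26 * y ^ (2 : ℝ)) * y ^ (-(3 * σ)) :=
          mul_le_mul_of_nonneg_right h5 (Real.rpow_nonneg hy0.le _)
      _ = 26 * y ^ (2 + -(3 * σ)) := by rw [Real.rpow_add hy0]; ring
      _ ≤ 26 * y ^ (-σ) := by
          refine mul_le_mul_of_nonneg_left ?_ (by norm_num)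
          exact Real.rpow_le_rpow_of_exponent_le (by linarith) (by linarith)

theorem sum_rpow_le (σ : ℝ) (hσ : 1 < σ) (N : ℕ) :
    ∑ i ∈ Finset.range N, (1 + ((i + 1 : ℕ) : ℝ)) ^ (-σ) ≤ 1 / (σ - 1) := by
  have hanti : AntitoneOn (fun x : ℝ => x ^ (-σ)) (Set.Icc (1 : ℝ) (1 + N)) := by
    intro x hx y hy hxy
    exact Real.rpow_le_rpow_of_nonpos (by linarith [hx.1]) hxy (by linarith)
  have h1 := hanti.sum_le_integral
  refine h1.trans ?_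
  rw [integral_rpow]
  · rw [Real.one_rpow]
    have h2 : -σ + 1 < 0 := by linarith
    have h3 : 0 ≤ (1 + (N : ℝ)) ^ (-σ + 1) := Real.rpow_nonneg (by positivity) _
    have e : ((1 + (N : ℝ)) ^ (-σ + 1) - 1) / (-σ + 1) = (1 - (1 + (N : ℝ)) ^ (-σ + 1)) / (σ - 1) := by
      rw [← neg_div_neg_eq]
      congr 1 <;> ring
    rw [e]
    refine div_le_div_of_nonneg_right (by linarith) (by linarith)
  · right
    refine ⟨by linarith, ?_⟩
    rw [Set.uIcc_of_le (by have : (0:ℝ) ≤ N := Nat.cast_nonneg N; linarith)]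
    intro h
    linarith [h.1]

theorem sum_fin (σ : ℝ) (hσ : 1 < σ) (u : Finset (Fin 3 → ℤ)) :
    ∑ m ∈ u, (1 + ‖cst m‖) ^ (-(3 * σ)) ≤ 1 + 26 * (1 / (σ - 1)) := by
  obtain ⟨N, hN⟩ : ∃ N : ℕ, u ⊆ bx N := by
    refine ⟨u.sup fun m => Finset.univ.sup fun i => (m i).natAbs, fun m hm => ?_⟩
    rw [mem_bx]
    intro i
    rw [Int.abs_eq_natAbs]
    have h1 : (m i).natAbs ≤ Finset.univ.sup fun i => (m i).natAbs :=
      Finset.le_sup (f := fun i => (m i).natAbs) (Finset.mem_univ i)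
    have h2 := Finset.le_sup (f := fun m : Fin 3 → ℤ => Finset.univ.sup fun i => (m i).natAbs) hm
    exact_mod_cast h1.trans h2
  calc ∑ m ∈ u, (1 + ‖cst m‖) ^ (-(3 * σ)) ≤ ∑ m ∈ bx N, (1 + ‖cst m‖) ^ (-(3 * σ)) :=
        Finset.sum_le_sum_of_subset_of_nonneg hN fun m _ _ => Real.rpow_nonneg (by positivity) _
    _ ≤ _ := (sum_bx σ hσ N).trans (by
        have := sum_rpow_le σ hσ N
        linarith)

end SC

namespace Lat

variable (Λ : Lat)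

private theorem natAbs_real (m : Fin 3 → ℤ) : ((Λ.nm m).natAbs : ℝ) = |(Λ.nm m : ℝ)| := by
  rw [Nat.cast_natAbs, Int.cast_abs]

/-- the norm is at least a constant times the cube of the size on the support of `Phi` -/
theorem nm_lower : ∃ c : ℝ, 0 < c ∧ ∀ (n : Fin 2 → ℤ) (m : Fin 3 → ℤ), Λ.Phi n (Λ.vec m) ≠ 0 →
    c * ‖cst m‖ ^ 3 ≤ ((Λ.nm m).natAbs : ℝ) := by
  obtain ⟨K, hK, hsupp⟩ := Λ.Phi_supp
  have hdet : Λ.A.det ≠ 0 := by
    intro h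
    have := Λ.detA
    rw [h, abs_zero] at this
    norm_num at this
  obtain ⟨c, hc, hlow⟩ := mulVec_lower Λ.A hdet
  have hK0 : 0 < K := by linarith
  refine ⟨(c / K) ^ 3, by positivity, fun n m hm => ?_⟩
  have h1 := hsupp n (Λ.vec m) hm
  have h2 : c * ‖cst m‖ ≤ ‖Λ.vec m‖ := hlow (cst m)
  have h3 : ∀ j, c / K * ‖cst m‖ ≤ |Λ.vec m j| := by
    intro j
    have h4 : ‖Λ.vec m‖ ≤ K * |Λ.vec m j| := by
      rw [pi_norm_le_iff_of_nonneg (by positivity)]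
      intro i
      rw [Real.norm_eq_abs]
      exact h1 i j
    rw [div_mul_eq_mul_div, div_le_iff₀ hK0]
    linarith
  rw [natAbs_real, Λ.nm_eq, Finset.abs_prod, ← mul_pow]
  have h5 : (c / K * ‖cst m‖) ^ 3 = ∏ _j : Fin 3, (c / K * ‖cst m‖) := by simp
  rw [h5]
  exact Finset.prod_le_prod (fun _ _ => by positivity) fun j _ => h3 j

private theorem vec_zero' : Λ.vec 0 = 0 := by
  unfold vec
  have : (fun i => (((0 : Fin 3 → ℤ) i : ℤ) : ℝ)) = 0 := by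
    funext i; simp
  rw [this, Matrix.mulVec_zero]

private theorem norm_ge_one {m : Fin 3 → ℤ} (hm : m ≠ 0) : 1 ≤ ‖cst m‖ := by
  have h : m ∉ SC.bx 0 := by
    rw [SC.mem_bx]
    intro h
    apply hm
    funext i
    have := h i
    simpa using this
  have := SC.norm_ge h
  simpa using this

/-- the termwise comparison -/
private theorem term_le {c : ℝ} (hc : 0 < c) (h : ∀ (n : Fin 2 → ℤ) (m : Fin 3 → ℤ), Λ.Phi n (Λ.vec m) ≠ 0 →
    c * ‖cst m‖ ^ 3 ≤ ((Λ.nm m).natAbs : ℝ)) (n : Fin 2 → ℤ) {σ : ℝ} (hσ : 1 < σ) (m : Fin 3 → ℤ) :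
    ‖Λ.Phi n (Λ.vec m)‖ * ((Λ.nm m).natAbs : ℝ) ^ (-σ) ≤ (c / 8) ^ (-σ) * (1 + ‖cst m‖) ^ (-(3 * σ)) := by
  by_cases hm : Λ.Phi n (Λ.vec m) = 0
  · rw [hm, norm_zero, zero_mul]
    positivity
  · have hm0 : m ≠ 0 := by
      rintro rfl
      exact hm (by rw [Λ.vec_zero', Λ.Phi_zero])
    have h1 := h n m hm
    have h2 := norm_ge_one hm0
    have h3 : c / 8 * (1 + ‖cst m‖) ^ (3 : ℝ) ≤ ((Λ.nm m).natAbs : ℝ) := by
      refine le_trans ?_ h1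
      have e : (1 + ‖cst m‖) ^ (3 : ℝ) = (1 + ‖cst m‖) ^ 3 := by
        rw [← Real.rpow_natCast]; norm_num
      rw [e]
      have h4 : (1 + ‖cst m‖) ^ 3 ≤ (2 * ‖cst m‖) ^ 3 := by
        gcongr
        linarith
      calc c / 8 * (1 + ‖cst m‖) ^ 3 ≤ c / 8 * (2 * ‖cst m‖) ^ 3 := by gcongr
        _ = c * ‖cst m‖ ^ 3 := by ring
    have h5 : 0 < c / 8 * (1 + ‖cst m‖) ^ (3 : ℝ) := by positivity
    calc ‖Λ.Phi n (Λ.vec m)‖ * ((Λ.nm m).natAbs : ℝ) ^ (-σ) ≤ 1 * (c / 8 * (1 + ‖cst m‖) ^ (3 : ℝ)) ^ (-σ) := by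
          refine mul_le_mul (Λ.Phi_norm_le n _) ?_ (Real.rpow_nonneg (Nat.cast_nonneg _) _) zero_le_one
          exact Real.rpow_le_rpow_of_nonpos h5 h3 (by linarith)
      _ = (c / 8) ^ (-σ) * (1 + ‖cst m‖) ^ (-(3 * σ)) := by
          rw [one_mul, Real.mul_rpow (by positivity) (by positivity), ← Real.rpow_mul (by positivity)]
          congr 2
          ring

theorem cone_summable (n : Fin 2 → ℤ) {σ : ℝ} (hσ : 1 < σ) :
    Summable (fun m : Fin 3 → ℤ => ‖Λ.Phi n (Λ.vec m)‖ * ((Λ.nm m).natAbs : ℝ) ^ (-σ)) := by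
  obtain ⟨c, hc, h⟩ := Λ.nm_lower
  refine summable_of_sum_le (c := (c / 8) ^ (-σ) * (1 + 26 * (1 / (σ - 1)))) (fun m => by positivity) fun u => ?_
  calc ∑ m ∈ u, ‖Λ.Phi n (Λ.vec m)‖ * ((Λ.nm m).natAbs : ℝ) ^ (-σ)
      ≤ ∑ m ∈ u, (c / 8) ^ (-σ) * (1 + ‖cst m‖) ^ (-(3 * σ)) := Finset.sum_le_sum fun m _ => Λ.term_le hc h n hσ m
    _ = (c / 8) ^ (-σ) * ∑ m ∈ u, (1 + ‖cst m‖) ^ (-(3 * σ)) := by rw [Finset.mul_sum]
    _ ≤ _ := mul_le_mul_of_nonneg_left (SC.sum_fin σ hσ u) (by positivity)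

theorem cone_bound (n : Fin 2 → ℤ) : ∃ C : ℝ, 0 < C ∧ ∀ σ : ℝ, 1 < σ → σ ≤ 2 →
    ∑' m : Fin 3 → ℤ, ‖Λ.Phi n (Λ.vec m)‖ * ((Λ.nm m).natAbs : ℝ) ^ (-σ) ≤ C / (σ - 1) := by
  obtain ⟨c, hc, h⟩ := Λ.nm_lower
  set b : ℝ := min (c / 8) 1 with hb
  have hb0 : 0 < b := lt_min (by positivity) one_pos
  have hb1 : b ≤ 1 := min_le_right _ _
  refine ⟨b ^ (-2 : ℝ) * 27, by positivity, fun σ hσ hσ2 => ?_⟩
  refine (Λ.cone_summable n hσ).tsum_le_of_sum_le fun u => ?_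
  have h1 : (c / 8) ^ (-σ) ≤ b ^ (-2 : ℝ) :=
    calc (c / 8) ^ (-σ) ≤ b ^ (-σ) := Real.rpow_le_rpow_of_nonpos hb0 (min_le_left _ _) (by linarith)
      _ ≤ b ^ (-2 : ℝ) := Real.rpow_le_rpow_of_exponent_ge hb0 hb1 (by linarith)
  have h2 : 1 + 26 * (1 / (σ - 1)) ≤ 27 / (σ - 1) := by
    have h3 : 0 < σ - 1 := by linarith
    rw [div_eq_mul_one_div (27 : ℝ)]
    have h4 : 1 ≤ 1 / (σ - 1) := by
      rw [le_div_iff₀ h3]; linarith
    linarith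
  calc ∑ m ∈ u, ‖Λ.Phi n (Λ.vec m)‖ * ((Λ.nm m).natAbs : ℝ) ^ (-σ)
      ≤ ∑ m ∈ u, (c / 8) ^ (-σ) * (1 + ‖cst m‖) ^ (-(3 * σ)) := Finset.sum_le_sum fun m _ => Λ.term_le hc h n hσ m
    _ = (c / 8) ^ (-σ) * ∑ m ∈ u, (1 + ‖cst m‖) ^ (-(3 * σ)) := by rw [Finset.mul_sum]
    _ ≤ (c / 8) ^ (-σ) * (1 + 26 * (1 / (σ - 1))) := mul_le_mul_of_nonneg_left (SC.sum_fin σ hσ u) (by positivity)
    _ ≤ b ^ (-2 : ℝ) * (27 / (σ - 1)) := by
        refine mul_le_mul h1 h2 ?_ (by positivity)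
        have h3 : 0 < σ - 1 := by linarith
        positivity
    _ = b ^ (-2 : ℝ) * 27 / (σ - 1) := by ring

/-- only finitely many lattice points of given norm lie in the cone -/
theorem coef_finite (n : Fin 2 → ℤ) (T : ℝ) :
    {m : Fin 3 → ℤ | ((Λ.nm m).natAbs : ℝ) ≤ T ∧ Λ.Phi n (Λ.vec m) ≠ 0}.Finite := by
  obtain ⟨c, hc, h⟩ := Λ.nm_lower
  obtain ⟨N, hN⟩ := exists_nat_ge (T / c)
  refine (SC.bx N).finite_toSet.subset fun m hm => ?_
  obtain ⟨h1, h2⟩ := hm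
  by_contra h3
  have h3' : m ∉ SC.bx N := h3
  have h4 := SC.norm_ge h3'
  have h5 := h n m h2
  have hN0 : (0 : ℝ) ≤ N := Nat.cast_nonneg N
  have h6 : ‖cst m‖ ≤ ‖cst m‖ ^ 3 := by
    have : (1 : ℝ) ≤ ‖cst m‖ := by linarith
    nlinarith [mul_nonneg (sub_nonneg.2 this) (sub_nonneg.2 this), sq_nonneg ‖cst m‖]
  have h7 : ‖cst m‖ ≤ T / c := by
    rw [le_div_iff₀ hc]
    nlinarith
  linarith

theorem coef_zero (n : Fin 2 → ℤ) : Λ.coef n 0 = 0 := by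
  unfold coef
  have : ∀ m : Fin 3 → ℤ, (if (Λ.nm m).natAbs = 0 then Λ.Phi n (Λ.vec m) else 0) = 0 := by
    intro m
    split_ifs with h
    · have h1 : m = 0 := by
        by_contra hm
        exact Λ.nm_ne m hm (Int.natAbs_eq_zero.1 h)
      rw [h1, Λ.vec_zero', Λ.Phi_zero]
    · rfl
  rw [tsum_congr this, tsum_zero, mul_zero]

/-- the Dirichlet series of `w(k) a_k` for a bounded weight `w` -/
theorem coef_LSeries (n : Fin 2 → ℤ) (w : ℕ → ℂ) {B : ℝ} (hw : ∀ k, ‖w k‖ ≤ B) {s : ℂ} (hs : 1 < s.re) :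
    LSeriesSummable (fun k => w k * Λ.coef n k) s ∧
    LSeries (fun k => w k * Λ.coef n k) s = (1 / 2) * Λ.Z (fun m => w (Λ.nm m).natAbs) n s := by
  set g : (Fin 3 → ℤ) → ℂ := fun m => w (Λ.nm m).natAbs * Λ.Phi n (Λ.vec m) * ((Λ.nm m).natAbs : ℂ) ^ (-s) with hg
  have hgn : ∀ m, ‖g m‖ ≤ B * (‖Λ.Phi n (Λ.vec m)‖ * ((Λ.nm m).natAbs : ℝ) ^ (-s.re)) := by
    intro m
    by_cases hm : Λ.Phi n (Λ.vec m) = 0
    · simp [hg, hm]
    · have hm0 : m ≠ 0 := by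
        rintro rfl
        exact hm (by rw [Λ.vec_zero', Λ.Phi_zero])
      have hpos : 0 < (Λ.nm m).natAbs := Int.natAbs_pos.2 (Λ.nm_ne m hm0)
      rw [hg]
      simp only
      rw [norm_mul, norm_mul, Complex.norm_natCast_cpow_of_pos hpos, Complex.neg_re, mul_assoc]
      exact mul_le_mul_of_nonneg_right (hw _) (by positivity)
  have hsum : Summable g := Summable.of_norm_bounded ((Λ.cone_summable n hs).mul_left B) hgn
  have hfib := hsum.hasSum.tsum_fiberwise (fun m : Fin 3 → ℤ => (Λ.nm m).natAbs)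
  have hZ : ∑' m, g m = Λ.Z (fun m => w (Λ.nm m).natAbs) n s := rfl
  rw [hZ] at hfib
  have hterm : ∀ k : ℕ, (∑' b : (fun m : Fin 3 → ℤ => (Λ.nm m).natAbs) ⁻¹' {k}, g b) =
      2 * LSeries.term (fun k => w k * Λ.coef n k) s k := by
    intro k
    rw [tsum_subtype ((fun m : Fin 3 → ℤ => (Λ.nm m).natAbs) ⁻¹' {k}) g]
    have e1 : ∀ m : Fin 3 → ℤ, ((fun m : Fin 3 → ℤ => (Λ.nm m).natAbs) ⁻¹' {k}).indicator g m =
        (w k * (k : ℂ) ^ (-s)) * (if (Λ.nm m).natAbs = k then Λ.Phi n (Λ.vec m) else 0) := by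
      intro m
      by_cases h : (Λ.nm m).natAbs = k
      · rw [Set.indicator_of_mem (by simpa using h), if_pos h, hg]
        simp only
        rw [h]; ring
      · rw [Set.indicator_of_notMem (by simpa using h), if_neg h, mul_zero]
    simp only [e1]
    rw [tsum_mul_left]
    rcases Nat.eq_zero_or_pos k with rfl | hk
    · rw [LSeries.term_zero, mul_zero]
      have := Λ.coef_zero n
      unfold coef at this
      have h2 : (∑' m : Fin 3 → ℤ, if (Λ.nm m).natAbs = 0 then Λ.Phi n (Λ.vec m) else 0) = 0 := by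
        have h3 : (1 / 2 : ℂ) ≠ 0 := by norm_num
        exact (mul_eq_zero.1 this).resolve_left h3
      rw [h2, mul_zero]
    · rw [LSeries.term_of_ne_zero hk.ne', cpow_neg]
      unfold coef
      ring
  simp only [hterm] at hfib
  have h2 : HasSum (LSeries.term (fun k => w k * Λ.coef n k) s) ((1 / 2) * Λ.Z (fun m => w (Λ.nm m).natAbs) n s) := by
    have h3 := hfib.mul_left (1 / 2 : ℂ)
    have e : (fun k => (1 / 2 : ℂ) * (2 * LSeries.term (fun k => w k * Λ.coef n k) s k)) =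
        LSeries.term (fun k => w k * Λ.coef n k) s := by
      funext k
      ring
    rw [e] at h3
    exact h3
  exact ⟨h2.summable, h2.tsum_eq⟩

theorem coef0_bound : ∃ C : ℝ, 0 < C ∧ ∀ σ : ℝ, 1 < σ → σ ≤ 2 → ‖LSeries (Λ.coef 0) σ‖ ≤ C / (σ - 1) := by
  obtain ⟨C, hC, h⟩ := Λ.cone_bound 0
  refine ⟨C, hC, fun σ hσ hσ2 => ?_⟩
  have hs : 1 < (σ : ℂ).re := by simpa using hσ
  obtain ⟨-, h2⟩ := Λ.coef_LSeries 0 (fun _ => 1) (B := 1) (fun _ => by simp) hs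
  simp only [one_mul] at h2
  have e : LSeries (Λ.coef 0) σ = LSeries (fun k => Λ.coef 0 k) σ := rfl
  rw [e, h2]
  have hsum := Λ.cone_summable 0 hσ
  have h3 : ‖Λ.Z (fun _ => 1) 0 σ‖ ≤ ∑' m : Fin 3 → ℤ, ‖Λ.Phi 0 (Λ.vec m)‖ * ((Λ.nm m).natAbs : ℝ) ^ (-σ) := by
    unfold Z
    have hn : ∀ m : Fin 3 → ℤ, ‖(1 : ℂ) * Λ.Phi 0 (Λ.vec m) * ((Λ.nm m).natAbs : ℂ) ^ (-(σ : ℂ))‖ =
        ‖Λ.Phi 0 (Λ.vec m)‖ * ((Λ.nm m).natAbs : ℝ) ^ (-σ) := by
      intro m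
      by_cases hm : Λ.Phi 0 (Λ.vec m) = 0
      · simp [hm]
      · have hm0 : m ≠ 0 := by
          rintro rfl
          exact hm (by rw [Λ.vec_zero', Λ.Phi_zero])
        have hpos : 0 < (Λ.nm m).natAbs := Int.natAbs_pos.2 (Λ.nm_ne m hm0)
        rw [one_mul, norm_mul, Complex.norm_natCast_cpow_of_pos hpos, Complex.neg_re, Complex.ofReal_re]
    have h4 := norm_tsum_le_tsum_norm (f := fun m : Fin 3 → ℤ => (1 : ℂ) * Λ.Phi 0 (Λ.vec m) * ((Λ.nm m).natAbs : ℂ) ^ (-(σ : ℂ)))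
      (by simp only [hn]; exact hsum)
    simp only [hn] at h4
    exact h4
  have h5 := h σ hσ hσ2
  rw [norm_mul]
  have h6 : ‖(1 / 2 : ℂ)‖ = 1 / 2 := by norm_num
  rw [h6]
  have h7 := norm_nonneg (Λ.Z (fun _ => 1) 0 σ)
  linarith

/-- the coefficient formula in the form needed by `HeckeF` -/
theorem coef_eq (n : Fin 2 → ℤ) (k : ℕ) : Λ.coef n k = (1 / 2) * ∑' y : Fin 3 → ℤ,
    if |∏ j, Λ.A.mulVec (fun i => (y i : ℝ)) j| = k then Λ.Phi n (Λ.A.mulVec (fun i => (y i : ℝ))) else 0 := by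
  unfold coef
  congr 1
  refine tsum_congr fun y => ?_
  have h1 : ((Λ.nm y).natAbs = k) ↔ |∏ j, Λ.A.mulVec (fun i => (y i : ℝ)) j| = k := by
    rw [← Λ.nm_eq, ← natAbs_real]
    exact Nat.cast_inj.symm
  by_cases h : (Λ.nm y).natAbs = k
  · rw [if_pos h, if_pos (h1.1 h)]
    rfl
  · rw [if_neg h, if_neg (fun h2 => h (h1.2 h2))]

end Lat

end Pool.Agent.Helper71.BDA
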