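import Pool.Agent.Helper71.BDA.GT
import Pool.Agent.Helper71.BDA.SumC
import Pool.Agent.Helper71.BDA.RS

/-!
BDA block SF. The function `S_τ(t)`.
`S_large`: for `m ≠ 0`, `c₀(t v) = log t + c₀(v) ≥ log t` because `|N m| ≥ 1`. `S_cont`: locally finite sum. `S_small`: `riemann_bound`, `G_decay`, `G_mean`.
`S_mid`: the number of `m` with `‖t v_m‖ ≤ R`, `t ≥ 1` is finite.
-/

open Complex MeasureTheory Set

namespace Pool.Agent.Helper71.BDA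

namespace Lat

variable (Λ : Lat) (n : Fin 2 → ℤ)

theorem S_large (w : (Fin 3 → ℤ) → ℂ) (τ t : ℝ) (ht : 5 ≤ t) : Λ.S w n τ t = 0 := by
  sorry

theorem S_cont (w : (Fin 3 → ℤ) → ℂ) (τ : ℝ) : ContinuousOn (Λ.S w n τ) (Ioi 0) := by
  sorry

theorem S_mid {q : ℕ} (hq : 0 < q) {w : (Fin 3 → ℤ) → ℂ} (hw : Per q w) :
    ∃ C : ℝ, 0 ≤ C ∧ ∀ τ t : ℝ, 1 ≤ t → ‖Λ.S w n τ t‖ ≤ C := by
  sorry

theorem S_small (hn : n ≠ 0) {q : ℕ} (hq : 0 < q) {w : (Fin 3 → ℤ) → ℂ} (hw : Per q w) (N : ℕ) (hN : 4 ≤ N) :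
    ∃ C : ℝ, 0 ≤ C ∧ ∀ τ t : ℝ, 0 < t → t ≤ 1 → ‖Λ.S w n τ t‖ ≤ C * (1 + |τ|) ^ N * t ^ ((N : ℝ) - 3) := by
  sorry

end Lat

end Pool.Agent.Helper71.BDA
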