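import Pool.Agent.Helper71.BDA.Cont

/-!
BDA block TW. The functions `F` and `F_ψ` (use the stubs `continuation`, `coef_LSeries`, `nm_mod`).
`w(m) = ψ(|N m|) = ψ(N m)` since `ψ` is even, and it is periodic modulo `q` by `nm_mod`.
-/

open Complex

namespace Pool.Agent.Helper71.BDA

namespace Lat

variable (Λ : Lat) (n : Fin 2 → ℤ)

/-- the entire function `F` -/
theorem exists_F (hn : n ≠ 0) : ∃ F : ℂ → ℂ, Differentiable ℂ F ∧
    (∀ s : ℂ, 1 < s.re → LSeriesSummable (Λ.coef n) s ∧ F s = LSeries (Λ.coef n) s) ∧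
    ∀ σ₁ σ₂ : ℝ, ∃ A C : ℝ, ∀ s : ℂ, σ₁ ≤ s.re → s.re ≤ σ₂ → ‖F s‖ ≤ C * (1 + |s.im|) ^ A := by
  sorry

/-- even twists -/
theorem exists_twist (hn : n ≠ 0) (q : ℕ) [NeZero q] (ψ : DirichletCharacter ℂ q) (hψ : ψ.Even) :
    ∃ G : ℂ → ℂ, Differentiable ℂ G ∧ ∀ s : ℂ, 1 < s.re → G s = LSeries (fun k => ψ k * Λ.coef n k) s := by
  sorry

end Lat

end Pool.Agent.Helper71.BDA
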